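import Mathlib

namespace H40Brouwer

open Set Metric

theorem univ_simply : IsSimplyConnected (univ : Set ℂ) := by
  have : SimplyConnectedSpace ℂ := inferInstance
  exact (Homeomorph.Set.univ ℂ).toHomotopyEquiv.simplyConnectedSpace

/-- a zero-free continuous function on the plane has a continuous logarithm -/
theorem exists_log (g : ℂ → ℂ) (hg : Continuous g) (h0 : ∀ z, g z ≠ 0) :
    ∃ L : ℂ → ℂ, Continuous L ∧ ∀ z, Complex.exp (L z) = g z := by
  obtain ⟨L, hL, hE⟩ := Complex.exists_continuousOn_eqOn_exp_comp univ_simply isOpen_univ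
    (hg.continuousOn (s := univ)) (by
      rintro ⟨z, -, hz⟩
      exact h0 z hz)
  exact ⟨L, continuousOn_univ.1 hL, fun z => hE (mem_univ z)⟩

/-- there is no continuous logarithm of the identity along a circle -/
theorem no_log_circle (R : ℝ) (hR : 0 < R) (l : ℝ → ℂ) (hl : Continuous l)
    (hper : l (2 * Real.pi) = l 0)
    (he : ∀ t : ℝ, Complex.exp (l t) = R * Complex.exp (t * Complex.I)) : False := by
  -- `h t = l t - t I` has constant exponential, hence is constant
  set h : ℝ → ℂ := fun t => l t - t * Complex.I with hh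
  have hc : Continuous h := by fun_prop
  have hexp : ∀ t, Complex.exp (h t) = R := by
    intro t
    simp only [hh]
    rw [Complex.exp_sub, he t, mul_div_assoc, div_self (Complex.exp_ne_zero _), mul_one]
  -- the function k t = (h t - h 0) / (2 π I) is integer valued
  have hint : ∀ t, ∃ n : ℤ, h t = h 0 + n * (2 * Real.pi * Complex.I) := by
    intro t
    have := (Complex.exp_eq_exp_iff_exists_int).1 ((hexp t).trans (hexp 0).symm)
    exact this
  -- its imaginary part over 2π is a continuous integer valued function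
  set k : ℝ → ℝ := fun t => ((h t).im - (h 0).im) / (2 * Real.pi) with hk
  have hkc : Continuous k := by fun_prop
  have hpi : (0:ℝ) < 2 * Real.pi := by positivity
  have hkint : ∀ t, ∃ n : ℤ, k t = n := by
    intro t
    obtain ⟨n, hn⟩ := hint t
    refine ⟨n, ?_⟩
    simp only [hk]
    rw [hn]
    simp
  have hconst : ∀ t, k t = k 0 := by
    intro t
    by_contra hne
    have hk0 : k 0 = 0 := by simp [hk]
    obtain ⟨n, hn⟩ := hkint t
    -- choose value strictly between
    have himg : ∀ v ∈ uIcc (k 0) (k t), ∃ s, k s = v := by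
      intro v hv
      have := intermediate_value_uIcc (a := 0) (b := t) (f := k) hkc.continuousOn hv
      obtain ⟨s, -, hs⟩ := this
      exact ⟨s, hs⟩
    rcases lt_or_gt_of_ne hne with hlt | hgt
    · have hn0 : n ≤ -1 := by
        have : (n:ℝ) < 0 := by rw [← hn]; linarith
        have : n < 0 := by exact_mod_cast this
        omega
      obtain ⟨s, hs⟩ := himg (-1/2) (by
        rw [uIcc_of_ge hlt.le]
        have : (n:ℝ) ≤ -1 := by exact_mod_cast hn0
        constructor
        · rw [hn]; linarith
        · rw [hk0]; norm_num)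
      obtain ⟨j, hj⟩ := hkint s
      rw [hs] at hj
      have h2 : (2 * j : ℝ) = -1 := by linarith
      have : (2 * j : ℤ) = -1 := by exact_mod_cast h2
      omega
    · have hn0 : 1 ≤ n := by
        have : (0:ℝ) < n := by rw [← hn]; linarith
        have : 0 < n := by exact_mod_cast this
        omega
      obtain ⟨s, hs⟩ := himg (1/2) (by
        rw [uIcc_of_le hgt.le]
        have : (1:ℝ) ≤ n := by exact_mod_cast hn0
        constructor
        · rw [hk0]; norm_num
        · rw [hn]; linarith)
      obtain ⟨j, hj⟩ := hkint s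
      rw [hs] at hj
      have h2 : (2 * j : ℝ) = 1 := by linarith
      have : (2 * j : ℤ) = 1 := by exact_mod_cast h2
      omega
  have h1 := hconst (2 * Real.pi)
  simp only [hk, hh] at h1
  rw [hper] at h1
  simp at h1

/-- radial retraction on the closed disc of radius `R` -/
noncomputable def ret (R : ℝ) (z : ℂ) : ℂ := ((R / max R ‖z‖ : ℝ) : ℂ) * z

theorem ret_cont (R : ℝ) (hR : 0 < R) : Continuous (ret R) := by
  unfold ret
  refine Continuous.mul (Complex.continuous_ofReal.comp ?_) continuous_id
  refine Continuous.div continuous_const (continuous_const.max continuous_norm) ?_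
  intro z
  have : R ≤ max R ‖z‖ := le_max_left _ _
  linarith

theorem ret_mem (R : ℝ) (hR : 0 < R) (z : ℂ) : ‖ret R z‖ ≤ R := by
  unfold ret
  have h1 : R ≤ max R ‖z‖ := le_max_left _ _
  have h2 : ‖z‖ ≤ max R ‖z‖ := le_max_right _ _
  rw [norm_mul, Complex.norm_real, Real.norm_of_nonneg (by positivity), div_mul_eq_mul_div,
    div_le_iff₀ (by linarith)]
  exact mul_le_mul_of_nonneg_left h2 hR.le

theorem ret_eq (R : ℝ) (hR : 0 < R) (z : ℂ) (hz : ‖z‖ ≤ R) : ret R z = z := by
  unfold ret
  rw [max_eq_left hz, div_self hR.ne']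
  simp

/-- Brouwer fixed point theorem for a disc in the complex plane. -/
theorem brouwer_complex (R : ℝ) (hR : 0 < R) (f : ℂ → ℂ)
    (hf : ContinuousOn f (closedBall 0 R)) (hm : ∀ z, ‖z‖ ≤ R → ‖f z‖ ≤ R) :
    ∃ z, ‖z‖ ≤ R ∧ f z = z := by
  by_contra hno
  push Not at hno
  set g : ℂ → ℂ := fun z => ret R z - f (ret R z) with hg
  have hgc : Continuous g := by
    refine (ret_cont R hR).sub ?_
    refine hf.comp_continuous (ret_cont R hR) ?_
    intro z
    simpa using ret_mem R hR z
  have hg0 : ∀ z, g z ≠ 0 := by
    intro z hz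
    exact hno (ret R z) (ret_mem R hR z) (sub_eq_zero.1 hz).symm
  obtain ⟨L, hL, hE⟩ := exists_log g hgc hg0
  -- the circle
  set c : ℝ → ℂ := fun t => R * Complex.exp (t * Complex.I) with hc
  have hcc : Continuous c := by fun_prop
  have hcn : ∀ t, ‖c t‖ = R := by
    intro t
    simp only [hc]
    rw [norm_mul, Complex.norm_real, Real.norm_of_nonneg hR.le, Complex.norm_exp_ofReal_mul_I,
      mul_one]
  have hc0 : ∀ t, c t ≠ 0 := by
    intro t ht
    have := hcn t
    rw [ht, norm_zero] at this
    linarith
  have hgcirc : ∀ t, g (c t) = c t - f (c t) := by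
    intro t
    simp only [hg]
    rw [ret_eq R hR _ (hcn t).le]
  have hfc : Continuous (fun t => f (c t)) := by
    refine hf.comp_continuous hcc ?_
    intro t
    simpa using (hcn t).le
  -- quotient
  set u : ℝ → ℂ := fun t => 1 - f (c t) / c t with hu
  have huc : Continuous u := by
    refine continuous_const.sub (hfc.div hcc hc0)
  have husl : ∀ t, u t ∈ Complex.slitPlane := by
    intro t
    have h1 : ‖f (c t) / c t‖ ≤ 1 := by
      rw [norm_div, hcn t, div_le_one hR]
      exact hm _ (hcn t).le
    have h2 : u t ≠ 0 := by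
      intro h0
      simp only [hu] at h0
      have h3 : f (c t) / c t = 1 := (sub_eq_zero.1 h0).symm
      rw [div_eq_one_iff_eq (hc0 t)] at h3
      exact hno (c t) (hcn t).le h3
    have h3 : 0 ≤ (u t).re := by
      simp only [hu, Complex.sub_re, Complex.one_re]
      have := (Complex.re_le_norm (f (c t) / c t))
      linarith
    rw [Complex.mem_slitPlane_iff]
    rcases h3.lt_or_eq with h4 | h4
    · exact Or.inl h4
    · right
      intro h5
      apply h2
      apply Complex.ext
      · simpa using h4.symm
      · simpa using h5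
  have hlogc : Continuous (fun t => Complex.log (u t)) := huc.clog husl
  refine no_log_circle R hR (fun t => L (c t) - Complex.log (u t))
    ((hL.comp hcc).sub hlogc) ?_ ?_
  · have : c (2 * Real.pi) = c 0 := by
      simp [hc]
    simp only [hu, this]
  · intro t
    show Complex.exp (L (c t) - Complex.log (u t)) = c t
    have hu0 : u t ≠ 0 := Complex.slitPlane_ne_zero (husl t)
    rw [Complex.exp_sub, hE, Complex.exp_log hu0, hgcirc, div_eq_iff hu0]
    simp only [hu]
    rw [mul_sub, mul_one, mul_div_cancel₀ _ (hc0 t)]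

/-- Brouwer fixed point theorem for a disc in the Euclidean plane. -/
theorem brouwer_plane (R : ℝ) (hR : 0 < R)
    (f : EuclideanSpace ℝ (Fin 2) → EuclideanSpace ℝ (Fin 2))
    (hf : ContinuousOn f (closedBall 0 R)) (hm : ∀ z, ‖z‖ ≤ R → ‖f z‖ ≤ R) :
    ∃ z, ‖z‖ ≤ R ∧ f z = z := by
  set e : ℂ ≃ₗᵢ[ℝ] EuclideanSpace ℝ (Fin 2) := Complex.orthonormalBasisOneI.repr with he
  obtain ⟨z, hz, hfz⟩ := brouwer_complex R hR (fun z => e.symm (f (e z))) (by
    refine e.symm.continuous.comp_continuousOn ?_
    refine hf.comp e.continuous.continuousOn ?_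
    intro z hz
    simpa using hz) (by
    intro z hz
    rw [LinearIsometryEquiv.norm_map]
    apply hm
    rwa [LinearIsometryEquiv.norm_map])
  refine ⟨e z, by rwa [LinearIsometryEquiv.norm_map], ?_⟩
  have := congrArg e hfz
  simpa using this

end H40Brouwer
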