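import Mathlib

namespace H40Tight

open Finset

variable {V : Type} [Fintype V] [DecidableEq V]

set_option linter.unusedSectionVars false

/-- neighbourhood of a set of vertices for a relation `G` -/
noncomputable def nb (G : V → V → Prop) (X : Finset V) : Finset V := by
  classical exact univ.filter (fun v => ∃ x ∈ X, G x v)

theorem mem_nb {G : V → V → Prop} {X : Finset V} {v : V} : v ∈ nb G X ↔ ∃ x ∈ X, G x v := by
  simp [nb]

theorem nb_mono {G H : V → V → Prop} (h : ∀ a b, G a b → H a b) (X : Finset V) :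
    nb G X ⊆ nb H X := by
  intro v hv
  rw [mem_nb] at hv ⊢
  obtain ⟨x, hx, hg⟩ := hv
  exact ⟨x, hx, h _ _ hg⟩

/-- deficiency -/
noncomputable def dfc (G : V → V → Prop) (X : Finset V) : ℤ := (X.card : ℤ) - (nb G X).card

theorem dfc_super (G : V → V → Prop) (X Y : Finset V) :
    dfc G X + dfc G Y ≤ dfc G (X ∩ Y) + dfc G (X ∪ Y) := by
  unfold dfc
  have h1 := card_union_add_card_inter X Y
  have h2 := card_union_add_card_inter (nb G X) (nb G Y)
  have h3 : nb G (X ∪ Y) ⊆ nb G X ∪ nb G Y := by
    intro v hv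
    rw [mem_nb] at hv
    obtain ⟨x, hx, hg⟩ := hv
    rw [mem_union, mem_nb, mem_nb]
    rcases mem_union.1 hx with hx | hx
    · exact Or.inl ⟨x, hx, hg⟩
    · exact Or.inr ⟨x, hx, hg⟩
  have h4 : nb G (X ∩ Y) ⊆ nb G X ∩ nb G Y := by
    intro v hv
    rw [mem_nb] at hv
    obtain ⟨x, hx, hg⟩ := hv
    rw [mem_inter] at hx
    rw [mem_inter, mem_nb, mem_nb]
    exact ⟨⟨x, hx.1, hg⟩, ⟨x, hx.2, hg⟩⟩
  have h5 := card_le_card h3
  have h6 := card_le_card h4
  omega

/-- there is an independent set of maximal deficiency -/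
theorem exists_max (G : V → V → Prop) (hs : ∀ a b, G a b → G b a) :
    ∃ R : Finset V, (∀ X, dfc G X ≤ dfc G R) ∧ (∀ a ∈ R, ∀ b ∈ R, ¬ G a b) := by
  classical
  obtain ⟨R, -, hR⟩ := Finset.exists_max_image (univ : Finset (Finset V)) (dfc G) ⟨∅, mem_univ _⟩
  refine ⟨R \ nb G R, ?_, ?_⟩
  · intro X
    refine (hR X (mem_univ _)).trans ?_
    unfold dfc
    have h1 : nb G (R \ nb G R) ⊆ nb G R \ R := by
      intro v hv
      rw [mem_nb] at hv
      obtain ⟨x, hx, hg⟩ := hv
      rw [mem_sdiff] at hx ⊢
      refine ⟨mem_nb.2 ⟨x, hx.1, hg⟩, ?_⟩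
      intro hvR
      exact hx.2 (mem_nb.2 ⟨v, hvR, hs _ _ hg⟩)
    have h2 := card_le_card h1
    have h3 := card_sdiff_add_card_inter R (nb G R)
    have h4 := card_sdiff_add_card_inter (nb G R) R
    rw [inter_comm] at h4
    omega
  · intro a ha b hb hab
    rw [mem_sdiff] at ha hb
    exact hb.2 (mem_nb.2 ⟨a, ha.1, hab⟩)

/-- a chosen independent set of maximal deficiency -/
noncomputable def pick (G : V → V → Prop) (hs : ∀ a b, G a b → G b a) : Finset V :=
  (exists_max G hs).choose

theorem pick_max (G : V → V → Prop) (hs : ∀ a b, G a b → G b a) (X : Finset V) :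
    dfc G X ≤ dfc G (pick G hs) := (exists_max G hs).choose_spec.1 X

theorem pick_indep (G : V → V → Prop) (hs : ∀ a b, G a b → G b a) :
    ∀ a ∈ pick G hs, ∀ b ∈ pick G hs, ¬ G a b := (exists_max G hs).choose_spec.2

theorem dfc_anti {G H : V → V → Prop} (h : ∀ a b, G a b → H a b) (X : Finset V) :
    dfc H X ≤ dfc G X := by
  unfold dfc
  have := card_le_card (nb_mono h X)
  omega

theorem dfc_inter_pick (G : V → V → Prop) (hs : ∀ a b, G a b → G b a) (X : Finset V) :
    dfc G X ≤ dfc G (pick G hs ∩ X) := by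
  have h1 := dfc_super G (pick G hs) X
  have h2 := pick_max G hs (pick G hs ∪ X)
  omega

/-- along an increasing chain of graphs with violators the chosen sets have a common element -/
theorem chain_common (K : ℕ) (G : ℕ → V → V → Prop) (hs : ∀ k a b, G k a b → G k b a)
    (hmono : ∀ k a b, G k a b → G (k + 1) a b)
    (hv : ∀ k, k ≤ K → ∃ X, 0 < dfc (G k) X) :
    ∃ x, ∀ k, k ≤ K → x ∈ pick (G k) (hs k) := by
  classical
  -- descending induction
  have key : ∀ j, j ≤ K → ∃ X : Finset V, 0 < dfc (G (K - j)) X ∧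
      ∀ k, K - j ≤ k → k ≤ K → X ⊆ pick (G k) (hs k) := by
    intro j
    induction j with
    | zero =>
      intro _
      obtain ⟨X, hX⟩ := hv K le_rfl
      refine ⟨pick (G K) (hs K), ?_, ?_⟩
      · simpa using hX.trans_le (pick_max (G K) (hs K) X)
      · intro k hk1 hk2
        have : k = K := by omega
        subst this
        exact fun _ h => h
    | succ j ih =>
      intro hj
      obtain ⟨X, hX, hsub⟩ := ih (by omega)
      refine ⟨pick (G (K - (j + 1))) (hs (K - (j + 1))) ∩ X, ?_, ?_⟩
      · have h1 := dfc_inter_pick (G (K - (j + 1))) (hs (K - (j + 1))) X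
        have h2 : dfc (G (K - j)) X ≤ dfc (G (K - (j + 1))) X := by
          apply dfc_anti
          intro a b hab
          have := hmono (K - (j + 1)) a b hab
          have he : K - (j + 1) + 1 = K - j := by omega
          rwa [he] at this
        omega
      · intro k hk1 hk2
        rcases Nat.lt_or_ge k (K - j) with h | h
        · have : k = K - (j + 1) := by omega
          subst this
          exact inter_subset_left
        · exact inter_subset_right.trans (hsub k h hk2)
  obtain ⟨X, hX, hsub⟩ := key K le_rfl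
  have hne : X.Nonempty := by
    rw [nonempty_iff_ne_empty]
    rintro rfl
    simp only [dfc, card_empty] at hX
    omega
  obtain ⟨x, hx⟩ := hne
  exact ⟨x, fun k hk => hsub k (by omega) hk hx⟩

end H40Tight
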