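import Mathlib

namespace H40Tight

open Finset Function

variable {V : Type} [Fintype V] [DecidableEq V]

set_option linter.unusedSectionVars false

/-- `X` can be perfectly matched inside the graph `G` -/
def PM (G : V → V → Prop) (X : Finset V) : Prop :=
  ∃ τ : V → V, ∀ v ∈ X, τ v ∈ X ∧ τ (τ v) = v ∧ G v (τ v)

theorem PM_union {G : V → V → Prop} {X Y : Finset V} (hX : PM G X) (hY : PM G Y)
    (hd : Disjoint X Y) : PM G (X ∪ Y) := by
  obtain ⟨s, hs⟩ := hX
  obtain ⟨t, ht⟩ := hY
  refine ⟨fun v => if v ∈ X then s v else t v, ?_⟩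
  intro v hv
  by_cases h : v ∈ X
  · obtain ⟨h1, h2, h3⟩ := hs v h
    simp only [h, if_true, h1]
    exact ⟨mem_union_left _ h1, h2, h3⟩
  · have hvY : v ∈ Y := by
      rcases mem_union.1 hv with h' | h'
      · exact absurd h' h
      · exact h'
    obtain ⟨h1, h2, h3⟩ := ht v hvY
    have h4 : t v ∉ X := fun h5 => (Finset.disjoint_left.1 hd h5) h1
    simp only [h, if_false, h4]
    exact ⟨mem_union_right _ h1, h2, h3⟩

theorem PM_pair {G : V → V → Prop} (hs : ∀ a b, G a b → G b a) (hi : ∀ a, ¬ G a a) {a b : V}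
    (hab : G a b) : PM G {a, b} := by
  have hne : a ≠ b := by
    rintro rfl
    exact hi _ hab
  refine ⟨fun v => if v = a then b else a, ?_⟩
  intro v hv
  rw [mem_insert, mem_singleton] at hv
  rcases hv with rfl | rfl
  · simp [hne.symm, hab]
  · simp [hne.symm, hs _ _ hab]

theorem PM_path {G : V → V → Prop} (hs : ∀ a b, G a b → G b a) (hi : ∀ a, ¬ G a a)
    (w : ℕ → V) (k : ℕ) (hinj : ∀ i j, i < 2 * k → j < 2 * k → w i = w j → i = j)
    (hadj : ∀ i, i < k → G (w (2 * i)) (w (2 * i + 1))) :
    PM G ((range (2 * k)).image w) := by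
  induction k with
  | zero =>
    refine ⟨id, ?_⟩
    intro v hv
    simp at hv
  | succ k ih =>
    have ih' := ih (fun i j h1 h2 h3 => hinj i j (by omega) (by omega) h3)
      (fun i h => hadj i (by omega))
    have h1 := PM_pair hs hi (hadj k (by omega))
    have h2 : (range (2 * (k + 1))).image w =
        (range (2 * k)).image w ∪ {w (2 * k), w (2 * k + 1)} := by
      have : 2 * (k + 1) = 2 * k + 1 + 1 := by ring
      rw [this, range_add_one, range_add_one, image_insert, image_insert]
      ext v
      simp only [mem_insert, mem_union, mem_singleton]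
      tauto
    rw [h2]
    refine PM_union ih' h1 ?_
    rw [Finset.disjoint_left]
    intro v hv hv2
    rw [mem_image] at hv
    obtain ⟨i, hi1, rfl⟩ := hv
    rw [mem_range] at hi1
    rw [mem_insert, mem_singleton] at hv2
    rcases hv2 with h | h
    · have := hinj _ _ (by omega) (by omega) h
      omega
    · have := hinj _ _ (by omega) (by omega) h
      omega

/-- orbit of `v` under `f` -/
noncomputable def orb (f : V → V) (v : V) : Finset V :=
  (range (minimalPeriod f v)).image (fun i => f^[i] v)

theorem mem_orb {f : V → V} (hf : Injective f) {v w : V} :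
    w ∈ orb f v ↔ ∃ i, f^[i] v = w := by
  unfold orb
  rw [mem_image]
  constructor
  · rintro ⟨i, -, h⟩
    exact ⟨i, h⟩
  · rintro ⟨i, h⟩
    refine ⟨i % minimalPeriod f v, ?_, ?_⟩
    · rw [mem_range]
      exact Nat.mod_lt _ (minimalPeriod_pos_of_mem_periodicPts (hf.mem_periodicPts v))
    · show f^[i % minimalPeriod f v] v = w
      rw [iterate_mod_minimalPeriod_eq, h]

theorem card_orb (f : V → V) (v : V) : (orb f v).card = minimalPeriod f v := by
  unfold orb
  rw [card_image_of_injOn, card_range]
  intro i hi j hj h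
  exact (iterate_injOn_Iio_minimalPeriod (f := f) (x := v)) (by simpa using hi) (by simpa using hj) h

theorem orb_fwd {f : V → V} (hf : Injective f) {v w : V} (hw : w ∈ orb f v) : f w ∈ orb f v := by
  rw [mem_orb hf] at hw ⊢
  obtain ⟨i, rfl⟩ := hw
  exact ⟨i + 1, iterate_succ_apply' f i v⟩

theorem orb_self {f : V → V} (hf : Injective f) (v : V) : v ∈ orb f v :=
  (mem_orb hf).2 ⟨0, rfl⟩

theorem iter_mem {f : V → V} {X : Finset V} (hX : ∀ v ∈ X, f v ∈ X) {v : V} (hv : v ∈ X) (i : ℕ) :
    f^[i] v ∈ X := by
  induction i with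
  | zero => exact hv
  | succ i ih => rw [iterate_succ_apply']; exact hX _ ih

theorem orb_disj {f : V → V} (hf : Injective f) {X : Finset V} (hX : ∀ v ∈ X, f v ∈ X) {v : V}
    (hv : v ∉ X) : Disjoint X (orb f v) := by
  rw [Finset.disjoint_right]
  intro w hw hwX
  rw [mem_orb hf] at hw
  obtain ⟨i, rfl⟩ := hw
  apply hv
  -- iterate further to come back to v
  have hp := minimalPeriod_pos_of_mem_periodicPts (hf.mem_periodicPts v)
  have h1 : f^[i * minimalPeriod f v] v = v :=
    (isPeriodicPt_minimalPeriod f v).const_mul i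
  have h2 : i * minimalPeriod f v = (i * minimalPeriod f v - i) + i := by
    have : i * 1 ≤ i * minimalPeriod f v := Nat.mul_le_mul_left i hp
    omega
  rw [h2, iterate_add_apply] at h1
  rw [← h1]
  exact iter_mem hX hwX _

theorem PM_orb_even {G : V → V → Prop} (hs : ∀ a b, G a b → G b a) (hi : ∀ a, ¬ G a a)
    {f : V → V} (hadj : ∀ v, G v (f v)) (v : V)
    (he : Even (minimalPeriod f v)) : PM G (orb f v) := by
  obtain ⟨k, hk⟩ := he
  have hk' : minimalPeriod f v = 2 * k := by omega
  unfold orb
  rw [hk']
  refine PM_path hs hi (fun i => f^[i] v) k ?_ ?_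
  · intro i j h1 h2 h3
    exact (iterate_injOn_Iio_minimalPeriod (f := f) (x := v))
      (by rw [Set.mem_Iio, hk']; exact h1) (by rw [Set.mem_Iio, hk']; exact h2) h3
  · intro i _
    show G (f^[2 * i] v) (f^[2 * i + 1] v)
    rw [iterate_succ_apply']
    exact hadj _

theorem PM_orb_odd {G : V → V → Prop} (hs : ∀ a b, G a b → G b a) (hi : ∀ a, ¬ G a a)
    {f : V → V} (hadj : ∀ v, G v (f v)) (v : V)
    (he : Odd (minimalPeriod f v)) : ∃ Y : Finset V, PM G Y ∧ v ∉ Y ∧ orb f v = insert v Y := by
  obtain ⟨k, hk⟩ := he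
  refine ⟨(range (2 * k)).image (fun i => f^[i + 1] v), ?_, ?_, ?_⟩
  · refine PM_path hs hi (fun i => f^[i + 1] v) k ?_ ?_
    · intro i j h1 h2 h3
      have := (iterate_injOn_Iio_minimalPeriod (f := f) (x := v))
        (by rw [Set.mem_Iio, hk]; omega) (by rw [Set.mem_Iio, hk]; omega) h3
      omega
    · intro i _
      show G (f^[2 * i + 1] v) (f^[2 * i + 1 + 1] v)
      rw [iterate_succ_apply' f (2 * i + 1)]
      exact hadj _
  · intro hv
    rw [mem_image] at hv
    obtain ⟨i, hi, h⟩ := hv
    rw [mem_range] at hi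
    have := (iterate_injOn_Iio_minimalPeriod (f := f) (x := v))
        (by rw [Set.mem_Iio, hk]; omega) (by rw [Set.mem_Iio, hk]; omega)
        (h.trans (iterate_zero_apply f v).symm)
    omega
  · unfold orb
    rw [hk]
    ext w
    simp only [mem_image, mem_range, mem_insert]
    constructor
    · rintro ⟨i, h1, h2⟩
      rcases Nat.eq_zero_or_pos i with h | h
      · subst h
        exact Or.inl h2.symm
      · refine Or.inr ⟨i - 1, by omega, ?_⟩
        have : i - 1 + 1 = i := by omega
        rw [this]; exact h2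
    · rintro (h | ⟨i, h1, h2⟩)
      · exact ⟨0, by omega, h.symm⟩
      · exact ⟨i + 1, by omega, h2⟩

theorem matching_of_perm {G : V → V → Prop} (hs : ∀ a b, G a b → G b a) (hi : ∀ a, ¬ G a a)
    (hV : Even (Fintype.card V)) {f : V → V} (hf : Injective f) (hadj : ∀ v, G v (f v))
    (hodd : ∀ v w, Odd (minimalPeriod f v) → Odd (minimalPeriod f w) → Disjoint (orb f v) (orb f w) →
      ∃ a ∈ orb f v, ∃ b ∈ orb f w, G a b) :
    ∃ τ : V → V, ∀ v, τ (τ v) = v ∧ G v (τ v) := by
  classical
  -- maximal good set
  let P : Finset V → Prop := fun X => PM G X ∧ (∀ v ∈ X, f v ∈ X) ∧ Even X.card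
  have hP0 : P ∅ := ⟨⟨id, by simp⟩, by simp, by simp⟩
  obtain ⟨X, hX, hmax⟩ := Finset.exists_max_image (univ.filter P) card ⟨∅, by simp [hP0]⟩
  rw [mem_filter] at hX
  obtain ⟨-, hXP, hXf, hXe⟩ := hX
  have hmax' : ∀ Y, P Y → X ⊆ Y → X = Y := by
    intro Y hY hsub
    exact eq_of_subset_of_card_le hsub (hmax Y (by simp [hY]))
  by_cases huniv : X = univ
  · obtain ⟨τ, hτ⟩ := hXP
    refine ⟨τ, fun v => ?_⟩
    have := hτ v (by rw [huniv]; exact mem_univ _)
    exact this.2
  · exfalso
    -- all orbits outside are odd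
    have hoo : ∀ v, v ∉ X → Odd (minimalPeriod f v) := by
      intro v hv
      by_contra hno
      rw [Nat.not_odd_iff_even] at hno
      have hd := orb_disj hf hXf hv
      have hP : P (X ∪ orb f v) := by
        refine ⟨PM_union hXP (PM_orb_even hs hi hadj v hno) hd, ?_, ?_⟩
        · intro w hw
          rcases mem_union.1 hw with h | h
          · exact mem_union_left _ (hXf w h)
          · exact mem_union_right _ (orb_fwd hf h)
        · rw [card_union_of_disjoint hd, card_orb]
          exact hXe.add hno
      have := hmax' _ hP subset_union_left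
      apply hv
      rw [this]
      exact mem_union_right _ (orb_self hf v)
    obtain ⟨v, hv⟩ : ∃ v, v ∉ X := by
      by_contra hno
      push Not at hno
      exact huniv (eq_univ_of_forall hno)
    have hvo := hoo v hv
    have hd := orb_disj hf hXf hv
    have hXvf : ∀ u ∈ X ∪ orb f v, f u ∈ X ∪ orb f v := by
      intro w hw
      rcases mem_union.1 hw with h | h
      · exact mem_union_left _ (hXf w h)
      · exact mem_union_right _ (orb_fwd hf h)
    obtain ⟨w, hw⟩ : ∃ w, w ∉ X ∪ orb f v := by
      by_contra hno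
      push Not at hno
      have h1 : X ∪ orb f v = univ := eq_univ_of_forall hno
      have h2 := congrArg card h1
      rw [card_union_of_disjoint hd, card_orb, card_univ] at h2
      rw [← h2] at hV
      exact (Nat.not_even_iff_odd.2 (hXe.add_odd hvo)) hV
    have hdw := orb_disj hf hXvf hw
    have hwX : w ∉ X := fun h => hw (mem_union_left _ h)
    have hwo := hoo w hwX
    have hdvw : Disjoint (orb f v) (orb f w) :=
      hdw.mono_left subset_union_right
    obtain ⟨a, ha, b, hb, hab⟩ := hodd v w hvo hwo hdvw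
    have haX : a ∉ X := fun h => Finset.disjoint_left.1 hd h ha
    have hbX : b ∉ X := fun h => Finset.disjoint_left.1 hdw (mem_union_left _ h) hb
    have hao := hoo a haX
    have hbo := hoo b hbX
    -- the orbits of a and b
    have hsuba : orb f a ⊆ orb f v := by
      intro u hu
      rw [mem_orb hf] at hu
      obtain ⟨i, rfl⟩ := hu
      exact iter_mem (fun u hu => orb_fwd hf hu) ha i
    have hsubb : orb f b ⊆ orb f w := by
      intro u hu
      rw [mem_orb hf] at hu
      obtain ⟨i, rfl⟩ := hu
      exact iter_mem (fun u hu => orb_fwd hf hu) hb i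
    have hdab : Disjoint (orb f a) (orb f b) := hdvw.mono hsuba hsubb
    have hdXa : Disjoint X (orb f a) := orb_disj hf hXf haX
    have hdXb : Disjoint X (orb f b) := orb_disj hf hXf hbX
    obtain ⟨Ya, hYa, haYa, hoa⟩ := PM_orb_odd hs hi hadj a hao
    obtain ⟨Yb, hYb, hbYb, hob⟩ := PM_orb_odd hs hi hadj b hbo
    have hYa' : Ya ⊆ orb f a := by rw [hoa]; exact subset_insert _ _
    have hYb' : Yb ⊆ orb f b := by rw [hob]; exact subset_insert _ _
    have haO : a ∈ orb f a := orb_self hf a
    have hbO : b ∈ orb f b := orb_self hf b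
    have hPM : PM G ((Ya ∪ Yb) ∪ {a, b}) := by
      refine PM_union (PM_union hYa hYb (hdab.mono hYa' hYb')) (PM_pair hs hi hab) ?_
      rw [Finset.disjoint_left]
      intro u hu hu2
      rw [mem_insert, mem_singleton] at hu2
      rcases hu2 with rfl | rfl
      · rcases mem_union.1 hu with h | h
        · exact haYa h
        · exact Finset.disjoint_left.1 hdab haO (hYb' h)
      · rcases mem_union.1 hu with h | h
        · exact Finset.disjoint_left.1 hdab (hYa' h) hbO
        · exact hbYb h
    have heq : (Ya ∪ Yb) ∪ {a, b} = orb f a ∪ orb f b := by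
      rw [hoa, hob]
      ext u
      simp only [mem_union, mem_insert, mem_singleton]
      tauto
    rw [heq] at hPM
    have hdX : Disjoint X (orb f a ∪ orb f b) := by
      rw [disjoint_union_right]
      exact ⟨hdXa, hdXb⟩
    have hP : P (X ∪ (orb f a ∪ orb f b)) := by
      refine ⟨PM_union hXP hPM hdX, ?_, ?_⟩
      · intro u hu
        rcases mem_union.1 hu with h | h
        · exact mem_union_left _ (hXf u h)
        · apply mem_union_right
          rcases mem_union.1 h with h | h
          · exact mem_union_left _ (orb_fwd hf h)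
          · exact mem_union_right _ (orb_fwd hf h)
      · rw [card_union_of_disjoint hdX, card_union_of_disjoint hdab, card_orb, card_orb]
        exact hXe.add (hao.add_odd hbo)
    have := hmax' _ hP subset_union_left
    apply haX
    rw [this]
    exact mem_union_right _ (mem_union_left _ haO)

end H40Tight
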