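import Mathlib
import Pool.Agent.H40.Defic
import Pool.Agent.H40.Orbit

namespace H40Tight

open Finset Function

set_option linter.unusedSectionVars false

/-- the plane -/
abbrev Pl : Type := EuclideanSpace ℝ (Fin 2)

variable {V : Type} [Fintype V] [DecidableEq V]

/-- two distinct members of the family whose pair hull contains `p` -/
def adj (A : V → Set Pl) (p : Pl) (i j : V) : Prop :=
  i ≠ j ∧ p ∈ convexHull ℝ (A i ∪ A j)

theorem adj_symm (A : V → Set Pl) (p : Pl) (i j : V) (h : adj A p i j) : adj A p j i :=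
  ⟨h.1.symm, by rw [Set.union_comm]; exact h.2⟩

theorem adj_irrefl (A : V → Set Pl) (p : Pl) (i : V) : ¬ adj A p i i := fun h => h.1 rfl

/-- tightness of a subfamily: the union of its pair hulls is convex -/
def Tight (A : V → Set Pl) (s : Finset V) : Prop :=
  Convex ℝ {x : Pl | ∃ i ∈ s, ∃ j ∈ s, i ≠ j ∧ x ∈ convexHull ℝ (A i ∪ A j)}

/-- Caratheodory in the plane -/
theorem cara3 {S : Set Pl} {p : Pl} (hp : p ∈ convexHull ℝ S) :
    ∃ a ∈ S, ∃ b ∈ S, ∃ c ∈ S, ∃ x y z : ℝ, 0 ≤ x ∧ 0 ≤ y ∧ 0 ≤ z ∧ x + y + z = 1 ∧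
      x • a + y • b + z • c = p := by
  classical
  rw [convexHull_eq_union] at hp
  simp only [Set.mem_iUnion] at hp
  obtain ⟨t, htS, hind, hpt⟩ := hp
  have hcard : t.card ≤ 3 := by
    have h1 := hind.card_le_finrank_succ
    have h2 : Module.finrank ℝ (vectorSpan ℝ (Set.range ((↑) : t → Pl))) ≤ 2 := by
      have := Submodule.finrank_le (vectorSpan ℝ (Set.range ((↑) : t → Pl)))
      simpa using this
    rw [Fintype.card_coe] at h1
    omega
  rw [Finset.mem_convexHull'] at hpt
  obtain ⟨w, hw0, hw1, hw2⟩ := hpt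
  have hpos : t.Nonempty := by
    rw [nonempty_iff_ne_empty]
    rintro rfl
    simp at hw1
  have h0 := hpos.card_pos
  rcases (by omega : t.card = 1 ∨ t.card = 2 ∨ t.card = 3) with h | h | h
  · obtain ⟨a, rfl⟩ := Finset.card_eq_one.1 h
    simp only [sum_singleton] at hw1 hw2
    have ha : a ∈ S := htS (by simp)
    refine ⟨a, ha, a, ha, a, ha, w a, 0, 0, hw0 a (by simp), le_rfl, le_rfl, ?_, ?_⟩
    · linarith
    · simpa using hw2
  · obtain ⟨a, b, hab, rfl⟩ := Finset.card_eq_two.1 h
    rw [sum_pair hab] at hw1 hw2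
    have ha : a ∈ S := htS (by simp)
    have hb : b ∈ S := htS (by simp)
    refine ⟨a, ha, b, hb, b, hb, w a, w b, 0, hw0 a (by simp), hw0 b (by simp), le_rfl, ?_, ?_⟩
    · linarith
    · simpa using hw2
  · obtain ⟨a, b, c, hab, hac, hbc, rfl⟩ := Finset.card_eq_three.1 h
    rw [sum_insert (by simp [hab, hac]), sum_pair hbc] at hw1 hw2
    have ha : a ∈ S := htS (by simp)
    have hb : b ∈ S := htS (by simp)
    have hc : c ∈ S := htS (by simp)
    refine ⟨a, ha, b, hb, c, hc, w a, w b, w c, hw0 a (by simp), hw0 b (by simp),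
      hw0 c (by simp), ?_, ?_⟩
    · linarith
    · rw [← hw2, add_assoc]

/-- two points on opposite sides of `p` give membership of `p` in the hull -/
theorem mem_hull_of {S : Set Pl} {p a b : Pl} (ha : a ∈ S) (hb : b ∈ S) {x y : ℝ} (hx : 0 ≤ x)
    (hy : 0 ≤ y) (hxy : 0 < x + y) (h : x • (a - p) + y • (b - p) = 0) :
    p ∈ convexHull ℝ S := by
  have h1 : x • a + y • b = (x + y) • p := by
    have : x • a + y • b - (x + y) • p = x • (a - p) + y • (b - p) := by
      rw [smul_sub, smul_sub, add_smul]; abel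
    rw [h, sub_eq_zero] at this
    exact this
  have h2 : (x / (x + y)) • a + (y / (x + y)) • b = p := by
    rw [div_eq_inv_mul, div_eq_inv_mul, mul_smul, mul_smul, ← smul_add, h1, smul_smul,
      inv_mul_cancel₀ hxy.ne', one_smul]
  rw [← h2]
  exact (convex_convexHull ℝ S) (subset_convexHull ℝ S ha) (subset_convexHull ℝ S hb)
    (by positivity) (by positivity) (by field_simp)

/-- points of a pair hull -/
theorem hull_pair {A B : Set Pl} (hA : Convex ℝ A) (hB : Convex ℝ B) (hA0 : A.Nonempty)
    (hB0 : B.Nonempty) {p : Pl} (hp : p ∈ convexHull ℝ (A ∪ B)) :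
    ∃ a ∈ A, ∃ b ∈ B, ∃ x y : ℝ, 0 ≤ x ∧ 0 ≤ y ∧ x + y = 1 ∧
      x • (a - p) + y • (b - p) = 0 := by
  rw [hA.convexHull_union hB hA0 hB0, mem_convexJoin] at hp
  obtain ⟨a, ha, b, hb, x, y, hx, hy, hxy, h⟩ := hp
  refine ⟨a, ha, b, hb, x, y, hx, hy, hxy, ?_⟩
  have : x • (a - p) + y • (b - p) = (x • a + y • b) - (x + y) • p := by
    rw [smul_sub, smul_sub, add_smul]; abel
  rw [this, h, hxy, one_smul, sub_self]

/-- a parallel vector is a multiple -/
theorem par {u v : Pl} (hu : u ≠ 0) (h : u 0 * v 1 - u 1 * v 0 = 0) : ∃ k : ℝ, v = k • u := by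
  have hn : u 0 ≠ 0 ∨ u 1 ≠ 0 := by
    by_contra hno
    push Not at hno
    apply hu
    ext i
    fin_cases i
    · simpa using hno.1
    · simpa using hno.2
  rcases hn with h0 | h1
  · refine ⟨v 0 / u 0, ?_⟩
    ext i
    fin_cases i
    · simp; field_simp
    · simp; field_simp; linarith
  · refine ⟨v 1 / u 1, ?_⟩
    ext i
    fin_cases i
    · simp; field_simp; linarith
    · simp; field_simp

/-- an element containing `p` is adjacent to everything -/
theorem adj_of_mem {A : V → Set Pl} {p : Pl} {i j : V} (hij : i ≠ j) (hp : p ∈ A i) :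
    adj A p i j :=
  ⟨hij, subset_convexHull ℝ _ (Or.inl hp)⟩

/-- line colouring: the members not adjacent to the two ends of an edge are coloured by two
colours such that adjacent ones get different colours -/
theorem colouring {A : V → Set Pl} (hconv : ∀ i, Convex ℝ (A i)) (hne : ∀ i, (A i).Nonempty)
    {p : Pl} {v v' : V} (hvv : adj A p v v') (D : Finset V) (hD0 : D.Nonempty)
    (hD : ∀ w ∈ D, w ≠ v ∧ w ≠ v' ∧ ¬ adj A p v w ∧ ¬ adj A p v' w) :
    ∃ col : V → Prop, ∀ w ∈ D, ∀ w' ∈ D, adj A p w w' → (col w ↔ ¬ col w') := by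
  obtain ⟨w0, hw0⟩ := hD0
  obtain ⟨h01, h02, h03, h04⟩ := hD w0 hw0
  obtain ⟨a, ha, b, hb, x, y, hx, hy, hxy, hsum⟩ :=
    hull_pair (hconv v) (hconv v') (hne v) (hne v') hvv.2
  have hap : a - p ≠ 0 := by
    intro h
    rw [sub_eq_zero] at h
    exact h03 (adj_of_mem h01.symm (h ▸ ha))
  have hbp : b - p ≠ 0 := by
    intro h
    rw [sub_eq_zero] at h
    exact h04 (adj_of_mem h02.symm (h ▸ hb))
  have hx0 : 0 < x := by
    rcases hx.lt_or_eq with h | h
    · exact h
    · exfalso
      rw [← h, zero_smul, zero_add] at hsum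
      have hy1 : y = 1 := by linarith
      rw [hy1, one_smul] at hsum
      exact hbp hsum
  have hy0 : 0 < y := by
    rcases hy.lt_or_eq with h | h
    · exact h
    · exfalso
      rw [← h, zero_smul, add_zero] at hsum
      have hy1 : x = 1 := by linarith
      rw [hy1, one_smul] at hsum
      exact hap hsum
  -- the functional
  let l : Pl → ℝ := fun q => (a - p) 0 * (q - p) 1 - (a - p) 1 * (q - p) 0
  have hlin : ∀ (s t : ℝ) (q r : Pl), s + t = 1 → l (s • q + t • r) = s * l q + t * l r := by
    intro s t q r hst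
    simp only [l]
    have ht : t = 1 - s := by linarith
    subst ht
    simp
    ring
  have hlp : l p = 0 := by simp [l]
  have hl0 : ∀ w ∈ D, ∀ q ∈ A w, l q ≠ 0 := by
    intro w hw q hq h0
    obtain ⟨h1, h2, h3, h4⟩ := hD w hw
    obtain ⟨k, hk⟩ := par hap h0
    rcases le_or_gt 0 k with hk0 | hk0
    · -- q on the side of a: then p between q and b
      apply h4
      refine ⟨h2.symm, ?_⟩
      refine mem_hull_of (a := b) (b := q) (Or.inl hb) (Or.inr hq)
        (x := k * y) (y := x) (by positivity) hx0.le (by positivity) ?_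
      rw [hk]
      have : (k * y) • (b - p) + x • k • (a - p) = k • (x • (a - p) + y • (b - p)) := by
        rw [smul_add, smul_smul, smul_smul, smul_smul, mul_comm k x, add_comm]
      rw [this, hsum, smul_zero]
    · apply h3
      refine ⟨h1.symm, ?_⟩
      refine mem_hull_of (a := a) (b := q) (Or.inl ha) (Or.inr hq)
        (x := -k) (y := 1) (by linarith) zero_le_one (by linarith) ?_
      rw [hk, one_smul, neg_smul, neg_add_cancel]
  refine ⟨fun w => ∀ q ∈ A w, 0 < l q, ?_⟩
  -- dichotomy
  have hdich : ∀ w ∈ D, (∀ q ∈ A w, 0 < l q) ∨ (∀ q ∈ A w, l q < 0) := by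
    intro w hw
    by_contra hno
    push Not at hno
    obtain ⟨⟨q, hq, hq1⟩, ⟨r, hr, hr1⟩⟩ := hno
    have hq2 : l q < 0 := lt_of_le_of_ne hq1 (hl0 w hw q hq)
    have hr2 : 0 < l r := lt_of_le_of_ne hr1 (hl0 w hw r hr).symm
    have hd : 0 < l r - l q := by linarith
    have hz : (l r / (l r - l q)) • q + (-l q / (l r - l q)) • r ∈ A w :=
      hconv w hq hr (div_nonneg hr2.le hd.le) (div_nonneg (by linarith) hd.le)
        (by rw [← add_div, ← sub_eq_add_neg, div_self hd.ne'])
    apply hl0 w hw _ hz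
    rw [hlin _ _ _ _ (by rw [← add_div, ← sub_eq_add_neg, div_self hd.ne'])]
    field_simp
    ring
  intro w hw w' hw' hadj
  obtain ⟨q, hq, r, hr, s, t, hs, ht, hst, hz⟩ :=
    hull_pair (hconv w) (hconv w') (hne w) (hne w') hadj.2
  have hz' : s • q + t • r = p := by
    have : s • q + t • r - (s + t) • p = s • (q - p) + t • (r - p) := by
      rw [smul_sub, smul_sub, add_smul]; abel
    rw [hz, hst, one_smul, sub_eq_zero] at this
    exact this
  have hval : s * l q + t * l r = 0 := by
    rw [← hlin s t q r hst, hz', hlp]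
  constructor
  · intro h1 h2
    have hq' := h1 q hq
    have hr' := h2 r hr
    rcases hs.lt_or_eq with h | h
    · nlinarith [mul_pos h hq', mul_nonneg ht hr'.le]
    · have : t = 1 := by linarith
      rw [this, ← h] at hval
      linarith
  · intro h1
    rcases hdich w hw with h | h
    · exact h
    · exfalso
      have h2 : ∀ q ∈ A w', l q < 0 := by
        rcases hdich w' hw' with h' | h'
        · exact absurd h' h1
        · exact h'
      have hq' := h q hq
      have hr' := h2 r hr
      rcases hs.lt_or_eq with h3 | h3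
      · nlinarith [mul_pos h3 (neg_pos.2 hq'), mul_nonneg ht (neg_pos.2 hr').le]
      · have : t = 1 := by linarith
        rw [this, ← h3] at hval
        linarith

/-- two disjoint odd cycles are joined by an edge -/
theorem odd_joined {A : V → Set Pl} (hconv : ∀ i, Convex ℝ (A i)) (hne : ∀ i, (A i).Nonempty)
    {p : Pl} {f : V → V} (hf : Injective f) (hadj : ∀ v, adj A p v (f v)) (v w : V)
    (hw : Odd (minimalPeriod f w)) (hd : Disjoint (orb f v) (orb f w)) :
    ∃ a ∈ orb f v, ∃ b ∈ orb f w, adj A p a b := by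
  by_contra hno
  push Not at hno
  have hv := orb_self hf v
  have hfv := orb_fwd hf hv
  obtain ⟨col, hcol⟩ := colouring hconv hne (hadj v) (orb f w) ⟨w, orb_self hf w⟩ (by
    intro u hu
    refine ⟨?_, ?_, hno v hv u hu, hno _ hfv u hu⟩
    · rintro rfl
      exact Finset.disjoint_left.1 hd hv hu
    · rintro rfl
      exact Finset.disjoint_left.1 hd hfv hu)
  have hstep : ∀ i : ℕ, (col (f^[i] w) ↔ ¬ col (f^[i + 1] w)) := by
    intro i
    have h1 : f^[i] w ∈ orb f w := iter_mem (fun u hu => orb_fwd hf hu) (orb_self hf w) i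
    have h2 : f^[i + 1] w ∈ orb f w :=
      iter_mem (fun u hu => orb_fwd hf hu) (orb_self hf w) (i + 1)
    refine hcol _ h1 _ h2 ?_
    rw [iterate_succ_apply']
    exact hadj _
  have hall : ∀ i : ℕ, (col (f^[2 * i] w) ↔ col w) := by
    intro i
    induction i with
    | zero => simp
    | succ i ih =>
      have h1 := hstep (2 * i)
      have h2 := hstep (2 * i + 1)
      have : 2 * (i + 1) = 2 * i + 1 + 1 := by ring
      rw [this]
      tauto
  obtain ⟨k, hk⟩ := hw
  have h1 := hall k
  have h2 := hstep (2 * k)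
  rw [← hk, iterate_minimalPeriod] at h2
  tauto

/-- the integral step: Hall's condition at `p` gives a perfect matching -/
theorem matching_at {A : V → Set Pl} (hconv : ∀ i, Convex ℝ (A i)) (hne : ∀ i, (A i).Nonempty)
    (hV : Even (Fintype.card V)) {p : Pl} (hall : ∀ X, dfc (adj A p) X ≤ 0) :
    ∃ τ : V → V, ∀ v, τ (τ v) = v ∧ adj A p v (τ v) := by
  classical
  have h1 : ∀ s : Finset V, s.card ≤ (s.biUnion (fun i => univ.filter (fun j => adj A p i j))).card := by
    intro s
    have h2 := hall s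
    have h3 : s.biUnion (fun i => univ.filter (fun j => adj A p i j)) = nb (adj A p) s := by
      ext v
      simp [mem_nb]
    rw [h3]
    unfold dfc at h2
    omega
  obtain ⟨f, hf, hfm⟩ := (Finset.all_card_le_biUnion_card_iff_exists_injective _).1 h1
  have hadj : ∀ v, adj A p v (f v) := by
    intro v
    have := hfm v
    rw [mem_filter] at this
    exact this.2
  exact matching_of_perm (adj_symm A p) (adj_irrefl A p) hV hf hadj
    (fun v w _ hw hd => odd_joined hconv hne hf hadj v w hw hd)

end H40Tight
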