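import Mathlib

/-!
# Complex-plane part of the counterexample for rectangular tables

For all small enough `ε > 0` the function `P ε` below has no level `4 x 2` rectangle whose centre
has modulus less than `3`, with all four vertices at distance less than `3` from the origin.
-/

open Set Complex

namespace Pool.Agent.H40.RectAux

/-! ### The function on the complex plane -/

/-- modulation parameter -/
noncomputable def β : ℝ := 1 / 100000

noncomputable def M (z : ℂ) : ℝ := (15 / 22) * (z ^ 6).re + (47 / 4) * β * (z ^ 6).im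

noncomputable def P (ε : ℝ) (z : ℂ) : ℝ :=
  7 / 2 - (normSq z - 5 - ε * (z ^ 3).re) * (1 - β * (z ^ 6).im) + ε ^ 2 * M z

noncomputable def D (ε : ℝ) (t d : ℂ) : ℝ :=
  -((ε * normSq t + 2 * (t * (starRingEnd ℂ) d).re - ((ε * t + d) ^ 3).re)
      * (1 - β * ((ε * t + d) ^ 6).im)
    - (ε * normSq t - 2 * (t * (starRingEnd ℂ) d).re - ((ε * t - d) ^ 3).re)
      * (1 - β * ((ε * t - d) ^ 6).im)) + ε * (M (ε * t + d) - M (ε * t - d))

noncomputable def S (ε : ℝ) (t d : ℂ) : ℝ :=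
  -(1 / 2) * (2 * normSq t - (2 * ε ^ 2 * t ^ 3 + 6 * d ^ 2 * t).re)
      * ((1 - β * ((ε * t + d) ^ 6).im) + (1 - β * ((ε * t - d) ^ 6).im))
    + (1 / 2) * β * (4 * (t * (starRingEnd ℂ) d).re - (2 * d ^ 3 + 6 * ε ^ 2 * (d * t ^ 2)).re)
      * (12 * d ^ 5 * t + 40 * ε ^ 2 * (d ^ 3 * t ^ 3) + 12 * ε ^ 4 * (d * t ^ 5)).im
    + (M (ε * t + d) + M (ε * t - d))

lemma normSq_add' (ε : ℝ) (t d : ℂ) (hd : normSq d = 5) :
    normSq (ε * t + d) - 5 = ε ^ 2 * normSq t + 2 * ε * (t * (starRingEnd ℂ) d).re := by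
  rw [Complex.normSq_add, Complex.normSq_mul, Complex.normSq_ofReal, hd]
  have : ((ε : ℂ) * t * (starRingEnd ℂ) d).re = ε * (t * (starRingEnd ℂ) d).re := by
    rw [mul_assoc, Complex.re_ofReal_mul]
  rw [this]; ring

lemma normSq_sub' (ε : ℝ) (t d : ℂ) (hd : normSq d = 5) :
    normSq (ε * t - d) - 5 = ε ^ 2 * normSq t - 2 * ε * (t * (starRingEnd ℂ) d).re := by
  rw [Complex.normSq_sub, Complex.normSq_mul, Complex.normSq_ofReal, hd]
  have : ((ε : ℂ) * t * (starRingEnd ℂ) d).re = ε * (t * (starRingEnd ℂ) d).re := by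
    rw [mul_assoc, Complex.re_ofReal_mul]
  rw [this]; ring

lemma diff_eq (ε : ℝ) (t d : ℂ) (hd : normSq d = 5) :
    P ε (ε * t + d) - P ε (ε * t - d) = ε * D ε t d := by
  unfold P D
  rw [normSq_add' ε t d hd, normSq_sub' ε t d hd]
  ring

lemma sum_eq (ε : ℝ) (t d : ℂ) (hd : normSq d = 5) :
    P ε (ε * t + d) + P ε (ε * t - d) - 7 = ε ^ 2 * S ε t d := by
  have h1 : ((ε * t + d) ^ 3 : ℂ).re + ((ε * t - d) ^ 3 : ℂ).re
      = ε * (2 * ε ^ 2 * t ^ 3 + 6 * d ^ 2 * t : ℂ).re := by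
    rw [← Complex.add_re, ← Complex.re_ofReal_mul]
    congr 1; ring
  have h2 : ((ε * t + d) ^ 3 : ℂ).re - ((ε * t - d) ^ 3 : ℂ).re
      = (2 * d ^ 3 + 6 * ε ^ 2 * (d * t ^ 2) : ℂ).re := by
    rw [← Complex.sub_re]
    congr 1; ring
  have h3 : ((ε * t + d) ^ 6 : ℂ).im - ((ε * t - d) ^ 6 : ℂ).im
      = ε * (12 * d ^ 5 * t + 40 * ε ^ 2 * (d ^ 3 * t ^ 3) + 12 * ε ^ 4 * (d * t ^ 5) : ℂ).im := by
    rw [← Complex.sub_im, ← Complex.im_ofReal_mul]
    congr 1; ring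
  unfold P S
  rw [normSq_add' ε t d hd, normSq_sub' ε t d hd]
  generalize ((ε * t + d) ^ 3 : ℂ).re = Bp at *
  generalize ((ε * t - d) ^ 3 : ℂ).re = Bm at *
  generalize ((ε * t + d) ^ 6 : ℂ).im = Ap at *
  generalize ((ε * t - d) ^ 6 : ℂ).im = Am at *
  generalize (2 * ε ^ 2 * t ^ 3 + 6 * d ^ 2 * t : ℂ).re = U at *
  generalize (2 * d ^ 3 + 6 * ε ^ 2 * (d * t ^ 2) : ℂ).re = V at *
  generalize (12 * d ^ 5 * t + 40 * ε ^ 2 * (d ^ 3 * t ^ 3) + 12 * ε ^ 4 * (d * t ^ 5) : ℂ).im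
    = W at *
  generalize (t * (starRingEnd ℂ) d).re = ρ at *
  linear_combination (ε / 2 * ((1 - β * Ap) + (1 - β * Am))) * h1
    - (β * ε / 2 * (Ap - Am)) * h2 + (β * ε / 2 * (4 * ρ - V)) * h3


/-- At `ε = 0` there is no common zero. -/
lemma no_zero (t e : ℂ) (he : normSq e = 1)
    (h1 : D 0 t ((2 + I) * e) = 0) (h2 : D 0 t ((2 - I) * e) = 0)
    (h3 : S 0 t ((2 + I) * e) = S 0 t ((2 - I) * e)) : False := by
  obtain ⟨τ, hτ⟩ : ∃ τ : ℂ, t = τ * e := ⟨t * (starRingEnd ℂ) e, by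
    rw [mul_assoc, mul_comm ((starRingEnd ℂ) e) e, Complex.mul_conj, he]; simp⟩
  have hee : e * (starRingEnd ℂ) e = 1 := by rw [Complex.mul_conj, he]; simp
  have hnt : normSq t = τ.re ^ 2 + τ.im ^ 2 := by
    rw [hτ, Complex.normSq_mul, he, mul_one, Complex.normSq_apply]; ring
  have hII : (I : ℂ) ^ 2 = -1 := Complex.I_sq
  have r1 : (t * (starRingEnd ℂ) ((2 + I) * e)).re = 2 * τ.re + τ.im := by
    have : t * (starRingEnd ℂ) ((2 + I) * e) = τ * (2 - I) := by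
      rw [hτ, map_mul]
      have : (starRingEnd ℂ) (2 + I) = 2 - I := by
        rw [map_add, Complex.conj_I, map_ofNat]; ring
      rw [this]
      linear_combination (τ * (2 - I)) * hee
    rw [this]; simp [Complex.mul_re]; ring
  have r2 : (t * (starRingEnd ℂ) ((2 - I) * e)).re = 2 * τ.re - τ.im := by
    have : t * (starRingEnd ℂ) ((2 - I) * e) = τ * (2 + I) := by
      rw [hτ, map_mul]
      have : (starRingEnd ℂ) (2 - I) = 2 + I := by
        rw [map_sub, Complex.conj_I, map_ofNat]; ring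
      rw [this]
      linear_combination (τ * (2 + I)) * hee
    rw [this]; simp [Complex.mul_re]; ring
  have hX : (e ^ 3).re ^ 2 + (e ^ 3).im ^ 2 = 1 := by
    have : normSq (e ^ 3) = 1 := by rw [map_pow, he]; norm_num
    rw [Complex.normSq_apply] at this; linarith
  have c1 : ((2 + I) * e) ^ 3 = (2 + 11 * I) * e ^ 3 := by
    linear_combination (I * e ^ 3 + 6 * e ^ 3) * hII
  have c2 : ((2 - I) * e) ^ 3 = (2 - 11 * I) * e ^ 3 := by
    linear_combination (-I * e ^ 3 + 6 * e ^ 3) * hII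
  have s1 : ((2 + I) * e) ^ 6 = (-117 + 44 * I) * (e ^ 3 * e ^ 3) := by
    have : ((2 + I) * e) ^ 6 = (((2 + I) * e) ^ 3) ^ 2 := by ring
    rw [this, c1]; linear_combination (121 * e ^ 6) * hII
  have s2 : ((2 - I) * e) ^ 6 = (-117 - 44 * I) * (e ^ 3 * e ^ 3) := by
    have : ((2 - I) * e) ^ 6 = (((2 - I) * e) ^ 3) ^ 2 := by ring
    rw [this, c2]; linear_combination (121 * e ^ 6) * hII
  have q1 : ((2 + I) * e) ^ 2 * t = (3 + 4 * I) * (τ * e ^ 3) := by
    rw [hτ]; linear_combination (τ * e ^ 3) * hII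
  have q2 : ((2 - I) * e) ^ 2 * t = (3 - 4 * I) * (τ * e ^ 3) := by
    rw [hτ]; linear_combination (τ * e ^ 3) * hII
  have e3r : ∀ d : ℂ, ((0 : ℝ) : ℂ) * t + d = d := fun d => by simp
  have e3r' : ∀ d : ℂ, ((0 : ℝ) : ℂ) * t - d = -d := fun d => by simp
  have n3 : ∀ d : ℂ, (-d) ^ 3 = -(d ^ 3) := fun d => by ring
  have n6 : ∀ d : ℂ, (-d) ^ 6 = d ^ 6 := fun d => by ring
  set X := (e ^ 3).re with hXdef
  set W := (e ^ 3).im with hWdef
  have i1 : (((2 + I) * e) ^ 6).im = 44 * (X ^ 2 - W ^ 2) - 117 * (2 * X * W) := by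
    rw [s1]; simp [Complex.mul_im, Complex.mul_re, ← hXdef, ← hWdef]; ring
  have i2 : (((2 - I) * e) ^ 6).im = -44 * (X ^ 2 - W ^ 2) - 117 * (2 * X * W) := by
    rw [s2]; simp [Complex.mul_im, Complex.mul_re, ← hXdef, ← hWdef]; ring
  have j1 : (((2 + I) * e) ^ 6).re = -117 * (X ^ 2 - W ^ 2) - 44 * (2 * X * W) := by
    rw [s1]; simp [Complex.mul_im, Complex.mul_re, ← hXdef, ← hWdef]; ring
  have j2 : (((2 - I) * e) ^ 6).re = -117 * (X ^ 2 - W ^ 2) + 44 * (2 * X * W) := by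
    rw [s2]; simp [Complex.mul_im, Complex.mul_re, ← hXdef, ← hWdef]; ring
  have k1 : (((2 + I) * e) ^ 3).re = 2 * X - 11 * W := by
    rw [c1]; simp [Complex.mul_im, Complex.mul_re, ← hXdef, ← hWdef]
  have k2 : (((2 - I) * e) ^ 3).re = 2 * X + 11 * W := by
    rw [c2]; simp [Complex.mul_im, Complex.mul_re, ← hXdef, ← hWdef]
  have l1 : (((2 + I) * e) ^ 2 * t).re
      = 3 * (τ.re * X - τ.im * W) - 4 * (τ.re * W + τ.im * X) := by
    rw [q1]; simp [Complex.mul_im, Complex.mul_re, ← hXdef, ← hWdef]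
  have l2 : (((2 - I) * e) ^ 2 * t).re
      = 3 * (τ.re * X - τ.im * W) + 4 * (τ.re * W + τ.im * X) := by
    rw [q2]; simp [Complex.mul_im, Complex.mul_re, ← hXdef, ← hWdef]
  have bX : X ^ 2 ≤ 1 := by nlinarith [sq_nonneg W]
  have bW : W ^ 2 ≤ 1 := by nlinarith [sq_nonneg X]
  have bXW : |2 * X * W| ≤ 1 := by
    rw [abs_le]; constructor <;> nlinarith [sq_nonneg (X + W), sq_nonneg (X - W)]
  obtain ⟨bl, bu⟩ := abs_le.mp bXW
  have bK1 : X ^ 2 - W ^ 2 ≤ 1 := by linarith [sq_nonneg W]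
  have bK2 : -1 ≤ X ^ 2 - W ^ 2 := by linarith [sq_nonneg X]
  clear bXW
  simp only [D, e3r, e3r', n3, n6, r1, k1, i1, Complex.neg_re, zero_mul, add_zero, zero_add] at h1
  simp only [D, e3r, e3r', n3, n6, r2, k2, i2, Complex.neg_re, zero_mul, add_zero, zero_add] at h2
  have g1 : 2 * (2 * τ.re + τ.im) - (2 * X - 11 * W) = 0 := by
    have hne : 1 - β * (44 * (X ^ 2 - W ^ 2) - 117 * (2 * X * W)) ≠ 0 := by
      apply ne_of_gt; unfold β; linarith
    have : (2 * (2 * τ.re + τ.im) - (2 * X - 11 * W)) *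
      (1 - β * (44 * (X ^ 2 - W ^ 2) - 117 * (2 * X * W))) = 0 := by linear_combination -h1 / 2
    rcases mul_eq_zero.mp this with h | h
    · exact h
    · exact absurd h hne
  have g2 : 2 * (2 * τ.re - τ.im) - (2 * X + 11 * W) = 0 := by
    have hne : 1 - β * (-44 * (X ^ 2 - W ^ 2) - 117 * (2 * X * W)) ≠ 0 := by
      apply ne_of_gt; unfold β; linarith
    have : (2 * (2 * τ.re - τ.im) - (2 * X + 11 * W)) *
      (1 - β * (-44 * (X ^ 2 - W ^ 2) - 117 * (2 * X * W))) = 0 := by linear_combination -h2 / 2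
    rcases mul_eq_zero.mp this with h | h
    · exact h
    · exact absurd h hne
  have hp : τ.re = X / 2 := by linarith
  have hq : τ.im = -(11 / 2) * W := by linarith
  have g3 : (4 * (2 * τ.re + τ.im) - 2 * (2 * X - 11 * W)) = 0 := by linarith
  have g4 : (4 * (2 * τ.re - τ.im) - 2 * (2 * X + 11 * W)) = 0 := by linarith
  have T1 : S 0 t ((2 + I) * e) = -2 * (normSq t - 3 * (((2 + I) * e) ^ 2 * t).re)
      * (1 - β * (((2 + I) * e) ^ 6).im) + 2 * M ((2 + I) * e) := by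
    have a1 : (2 * (((0 : ℝ) : ℂ)) ^ 2 * t ^ 3 + 6 * ((2 + I) * e) ^ 2 * t).re
        = 6 * (((2 + I) * e) ^ 2 * t).re := by
      have : (2 * (((0 : ℝ) : ℂ)) ^ 2 * t ^ 3 + 6 * ((2 + I) * e) ^ 2 * t)
        = ((6 : ℝ) : ℂ) * (((2 + I) * e) ^ 2 * t) := by push_cast; ring
      rw [this, Complex.re_ofReal_mul]
    have a2 : (2 * ((2 + I) * e) ^ 3 + 6 * (((0 : ℝ) : ℂ)) ^ 2 * (((2 + I) * e) * t ^ 2)).re
        = 2 * (2 * X - 11 * W) := by
      have : (2 * ((2 + I) * e) ^ 3 + 6 * (((0 : ℝ) : ℂ)) ^ 2 * (((2 + I) * e) * t ^ 2))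
        = ((2 : ℝ) : ℂ) * ((2 + I) * e) ^ 3 := by push_cast; ring
      rw [this, Complex.re_ofReal_mul, k1]
    unfold S
    rw [a1, a2, r1, g3, e3r, e3r', n6]
    have : M (-((2 + I) * e)) = M ((2 + I) * e) := by unfold M; rw [n6]
    rw [this]; ring
  have T2 : S 0 t ((2 - I) * e) = -2 * (normSq t - 3 * (((2 - I) * e) ^ 2 * t).re)
      * (1 - β * (((2 - I) * e) ^ 6).im) + 2 * M ((2 - I) * e) := by
    have a1 : (2 * (((0 : ℝ) : ℂ)) ^ 2 * t ^ 3 + 6 * ((2 - I) * e) ^ 2 * t).re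
        = 6 * (((2 - I) * e) ^ 2 * t).re := by
      have : (2 * (((0 : ℝ) : ℂ)) ^ 2 * t ^ 3 + 6 * ((2 - I) * e) ^ 2 * t)
        = ((6 : ℝ) : ℂ) * (((2 - I) * e) ^ 2 * t) := by push_cast; ring
      rw [this, Complex.re_ofReal_mul]
    have a2 : (2 * ((2 - I) * e) ^ 3 + 6 * (((0 : ℝ) : ℂ)) ^ 2 * (((2 - I) * e) * t ^ 2)).re
        = 2 * (2 * X + 11 * W) := by
      have : (2 * ((2 - I) * e) ^ 3 + 6 * (((0 : ℝ) : ℂ)) ^ 2 * (((2 - I) * e) * t ^ 2))
        = ((2 : ℝ) : ℂ) * ((2 - I) * e) ^ 3 := by push_cast; ring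
      rw [this, Complex.re_ofReal_mul, k2]
    unfold S
    rw [a1, a2, r2, g4, e3r, e3r', n6]
    have : M (-((2 - I) * e)) = M ((2 - I) * e) := by unfold M; rw [n6]
    rw [this]; ring
  rw [T1, T2] at h3
  unfold M at h3
  rw [i1, i2, j1, j2, l1, l2, hnt, hp, hq] at h3
  have key : β * (660 * (X ^ 2 - W ^ 2) ^ 2 + 7020 * (2 * X * W) ^ 2) = 0 := by
    linear_combination (1 / 2) * h3 + 1034 * β * (X ^ 2 - W ^ 2) * hX
  have hβ : β ≠ 0 := by unfold β; norm_num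
  have key2 : 660 * (X ^ 2 - W ^ 2) ^ 2 + 7020 * (2 * X * W) ^ 2 = 0 := by
    rcases mul_eq_zero.mp key with h | h
    · exact absurd h hβ
    · exact h
  have : (X ^ 2 - W ^ 2) ^ 2 + (2 * X * W) ^ 2 = 1 := by
    have : (X ^ 2 - W ^ 2) ^ 2 + (2 * X * W) ^ 2 = (X ^ 2 + W ^ 2) ^ 2 := by ring
    rw [this, hX]; norm_num
  nlinarith [sq_nonneg (2 * X * W)]

lemma re_pow_le (z : ℂ) (n : ℕ) (hz : ‖z‖ ≤ 3) : |(z ^ n).re| ≤ 3 ^ n := by
  calc |(z ^ n).re| ≤ ‖z ^ n‖ := Complex.abs_re_le_norm _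
    _ = ‖z‖ ^ n := norm_pow _ _
    _ ≤ 3 ^ n := pow_le_pow_left₀ (norm_nonneg _) hz n

lemma im_pow_le (z : ℂ) (n : ℕ) (hz : ‖z‖ ≤ 3) : |(z ^ n).im| ≤ 3 ^ n := by
  calc |(z ^ n).im| ≤ ‖z ^ n‖ := Complex.abs_im_le_norm _
    _ = ‖z‖ ^ n := norm_pow _ _
    _ ≤ 3 ^ n := pow_le_pow_left₀ (norm_nonneg _) hz n

lemma M_le (z : ℂ) (hz : ‖z‖ ≤ 3) : |M z| ≤ 600 := by
  have h1 := re_pow_le z 6 hz
  have h2 := im_pow_le z 6 hz
  unfold M β
  rw [abs_le] at *
  constructor <;> linarith [h1.1, h1.2, h2.1, h2.2]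

lemma P_bound (ε : ℝ) (h0 : 0 ≤ ε) (h1 : ε ≤ 1 / 1000) (z : ℂ) (hz : ‖z‖ ≤ 3) :
    |P ε z - (17 / 2 - normSq z)| ≤ 1 / 10 := by
  have hA := im_pow_le z 6 hz
  have hB := re_pow_le z 3 hz
  have hM := M_le z hz
  have hn : 0 ≤ normSq z := normSq_nonneg z
  have hn9 : normSq z ≤ 9 := by
    rw [Complex.normSq_eq_norm_sq]; nlinarith [norm_nonneg z]
  have e1 : P ε z - (17 / 2 - normSq z) = β * ((normSq z - 5) * (z ^ 6).im)
      + ε * ((z ^ 3).re * (1 - β * (z ^ 6).im)) + ε ^ 2 * M z := by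
    unfold P; ring
  have b1 : |(normSq z - 5) * (z ^ 6).im| ≤ 5 * 3 ^ 6 := by
    rw [abs_mul]
    apply mul_le_mul _ hA (abs_nonneg _) (by norm_num)
    rw [abs_le]; constructor <;> linarith
  have b2 : |(z ^ 3).re * (1 - β * (z ^ 6).im)| ≤ 3 ^ 3 * 1.01 := by
    rw [abs_mul]
    apply mul_le_mul hB _ (abs_nonneg _) (by norm_num)
    unfold β
    rw [abs_le] at *
    constructor <;> linarith [hA.1, hA.2]
  have t1 : |β * ((normSq z - 5) * (z ^ 6).im)| ≤ 0.04 := by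
    rw [abs_mul]
    have : |β| = 1 / 100000 := by unfold β; norm_num
    rw [this]; linarith
  have t2 : |ε * ((z ^ 3).re * (1 - β * (z ^ 6).im))| ≤ 0.03 := by
    rw [abs_mul, abs_of_nonneg h0]
    calc ε * |(z ^ 3).re * (1 - β * (z ^ 6).im)| ≤ (1 / 1000) * (3 ^ 3 * 1.01) :=
          mul_le_mul h1 b2 (abs_nonneg _) (by norm_num)
      _ ≤ 0.03 := by norm_num
  have t3 : |ε ^ 2 * M z| ≤ 0.001 := by
    rw [abs_mul, abs_of_nonneg (sq_nonneg ε)]
    have : ε ^ 2 ≤ (1 / 1000) ^ 2 := pow_le_pow_left₀ h0 h1 2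
    calc ε ^ 2 * |M z| ≤ (1 / 1000) ^ 2 * 600 :=
          mul_le_mul this hM (abs_nonneg _) (by norm_num)
      _ ≤ 0.001 := by norm_num
  rw [e1]
  rw [abs_le] at *
  constructor <;> linarith [t1.1, t1.2, t2.1, t2.2, t3.1, t3.2]

lemma rho_bound (ε : ℝ) (h0 : 0 ≤ ε) (h1 : ε ≤ 1 / 1000) (c d : ℂ) (hd : normSq d = 5)
    (hc : ‖c‖ ≤ 3) (hp : ‖c + d‖ ≤ 3) (hm : ‖c - d‖ ≤ 3) (h : P ε (c + d) = P ε (c - d)) :
    |(c * (starRingEnd ℂ) d).re| ≤ 0.02 * ‖c‖ + 15 * ε := by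
  have hAp := im_pow_le _ 6 hp
  have hAm := im_pow_le _ 6 hm
  have hBp := re_pow_le _ 3 hp
  have hBm := re_pow_le _ 3 hm
  have hMp := M_le _ hp
  have hMm := M_le _ hm
  have n1 := normSq_add' 1 c d hd
  have n2 := normSq_sub' 1 c d hd
  simp only [Complex.ofReal_one, one_mul, one_pow, mul_one] at n1 n2
  have hn : normSq c ≤ 3 * ‖c‖ := by
    rw [Complex.normSq_eq_norm_sq]; nlinarith [norm_nonneg c]
  have hn0 : 0 ≤ normSq c := normSq_nonneg c
  unfold P at h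
  rw [n1, n2] at h
  set ρ := (c * (starRingEnd ℂ) d).re
  set n := normSq c
  set Ap := ((c + d) ^ 6).im
  set Am := ((c - d) ^ 6).im
  set Bp := ((c + d) ^ 3).re
  set Bm := ((c - d) ^ 3).re
  have key : 4 * ρ = β * (n * (Ap - Am) + 2 * ρ * (Ap + Am))
      + ε * (Bp * (1 - β * Ap) - Bm * (1 - β * Am)) + ε ^ 2 * (M (c + d) - M (c - d)) := by
    linear_combination -h
  have t1 : |n * (Ap - Am) + 2 * ρ * (Ap + Am)| ≤ (3 * ‖c‖) * 1458 + 2 * |ρ| * 1458 := by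
    refine (abs_add_le _ _).trans ?_
    rw [abs_mul, abs_mul, abs_mul, abs_of_nonneg hn0, abs_of_nonneg (by norm_num : (0:ℝ) ≤ 2)]
    apply add_le_add
    · apply mul_le_mul hn _ (abs_nonneg _) (by positivity)
      rw [abs_le] at *; constructor <;> linarith [hAp.1, hAp.2, hAm.1, hAm.2]
    · apply mul_le_mul_of_nonneg_left _ (by positivity)
      rw [abs_le] at *; constructor <;> linarith [hAp.1, hAp.2, hAm.1, hAm.2]
  have b2 : |Bp * (1 - β * Ap)| ≤ 3 ^ 3 * 1.01 := by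
    rw [abs_mul]
    apply mul_le_mul hBp _ (abs_nonneg _) (by norm_num)
    unfold β
    rw [abs_le] at *
    constructor <;> linarith [hAp.1, hAp.2]
  have b3 : |Bm * (1 - β * Am)| ≤ 3 ^ 3 * 1.01 := by
    rw [abs_mul]
    apply mul_le_mul hBm _ (abs_nonneg _) (by norm_num)
    unfold β
    rw [abs_le] at *
    constructor <;> linarith [hAm.1, hAm.2]
  have t2 : |Bp * (1 - β * Ap) - Bm * (1 - β * Am)| ≤ 2 * (3 ^ 3 * 1.01) := by
    rw [abs_le] at *; constructor <;> linarith [b2.1, b2.2, b3.1, b3.2]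
  have t3 : |M (c + d) - M (c - d)| ≤ 1200 := by
    rw [abs_le] at *; constructor <;> linarith [hMp.1, hMp.2, hMm.1, hMm.2]
  have s1 : |β * (n * (Ap - Am) + 2 * ρ * (Ap + Am))|
      ≤ (1 / 100000) * ((3 * ‖c‖) * 1458 + 2 * |ρ| * 1458) := by
    rw [abs_mul]
    have : |β| = 1 / 100000 := by unfold β; norm_num
    rw [this]; linarith
  have s2 : |ε * (Bp * (1 - β * Ap) - Bm * (1 - β * Am))| ≤ ε * (2 * (3 ^ 3 * 1.01)) := by
    rw [abs_mul, abs_of_nonneg h0]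
    exact mul_le_mul_of_nonneg_left t2 h0
  have s3 : |ε ^ 2 * (M (c + d) - M (c - d))| ≤ ε * 1.2 := by
    rw [abs_mul, abs_of_nonneg (sq_nonneg ε)]
    calc ε ^ 2 * |M (c + d) - M (c - d)| ≤ ε ^ 2 * 1200 :=
          mul_le_mul_of_nonneg_left t3 (sq_nonneg ε)
      _ ≤ ε * 1.2 := by nlinarith
  have s4 : 4 * |ρ| ≤ (1 / 100000) * ((3 * ‖c‖) * 1458 + 2 * |ρ| * 1458)
      + ε * (2 * (3 ^ 3 * 1.01)) + ε * 1.2 := by
    have : 4 * |ρ| = |4 * ρ| := by rw [abs_mul, abs_of_nonneg (by norm_num : (0:ℝ) ≤ 4)]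
    rw [this, key]
    refine (abs_add_le _ _).trans ?_
    refine add_le_add ((abs_add_le _ _).trans (add_le_add s1 s2)) s3
  have hρ : 0 ≤ |ρ| := abs_nonneg _
  have hcn : 0 ≤ ‖c‖ := norm_nonneg _
  linarith

lemma c_bound (ε : ℝ) (h0 : 0 ≤ ε) (h1 : ε ≤ 1 / 1000) (c e : ℂ) (he : normSq e = 1)
    (hc : ‖c‖ ≤ 3)
    (hp1 : ‖c + (2 + I) * e‖ ≤ 3) (hm1 : ‖c - (2 + I) * e‖ ≤ 3)
    (hp2 : ‖c + (2 - I) * e‖ ≤ 3) (hm2 : ‖c - (2 - I) * e‖ ≤ 3)
    (h : P ε (c + (2 + I) * e) = P ε (c - (2 + I) * e))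
    (h' : P ε (c + (2 - I) * e) = P ε (c - (2 - I) * e)) :
    ‖c‖ ≤ 30 * ε := by
  have hd1 : normSq ((2 + I) * e) = 5 := by
    rw [Complex.normSq_mul, he]; simp [Complex.normSq_apply]; norm_num
  have hd2 : normSq ((2 - I) * e) = 5 := by
    rw [Complex.normSq_mul, he]; simp [Complex.normSq_apply]; norm_num
  have b1 := rho_bound ε h0 h1 c _ hd1 hc hp1 hm1 h
  have b2 := rho_bound ε h0 h1 c _ hd2 hc hp2 hm2 h'
  set γ := c * (starRingEnd ℂ) e with hγ
  have r1 : (c * (starRingEnd ℂ) ((2 + I) * e)).re = 2 * γ.re + γ.im := by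
    have : c * (starRingEnd ℂ) ((2 + I) * e) = γ * (2 - I) := by
      rw [hγ, map_mul]
      have : (starRingEnd ℂ) (2 + I) = 2 - I := by
        rw [map_add, Complex.conj_I, map_ofNat]; ring
      rw [this]; ring
    rw [this]; simp [Complex.mul_re]; ring
  have r2 : (c * (starRingEnd ℂ) ((2 - I) * e)).re = 2 * γ.re - γ.im := by
    have : c * (starRingEnd ℂ) ((2 - I) * e) = γ * (2 + I) := by
      rw [hγ, map_mul]
      have : (starRingEnd ℂ) (2 - I) = 2 + I := by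
        rw [map_sub, Complex.conj_I, map_ofNat]; ring
      rw [this]; ring
    rw [this]; simp [Complex.mul_re]; ring
  rw [r1] at b1
  rw [r2] at b2
  have hne : ‖e‖ = 1 := by
    have := Complex.normSq_eq_norm_sq e
    rw [he] at this
    nlinarith [norm_nonneg e]
  have hcγ : ‖c‖ = ‖γ‖ := by
    rw [hγ, norm_mul, RCLike.norm_conj, hne, mul_one]
  have hγ1 : ‖γ‖ ≤ |γ.re| + |γ.im| := Complex.norm_le_abs_re_add_abs_im γ
  have g1 : |γ.re| ≤ (1 / 4) * (|2 * γ.re + γ.im| + |2 * γ.re - γ.im|) := by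
    have : |4 * γ.re| ≤ |2 * γ.re + γ.im| + |2 * γ.re - γ.im| := by
      have : 4 * γ.re = (2 * γ.re + γ.im) + (2 * γ.re - γ.im) := by ring
      rw [this]; exact abs_add_le _ _
    rw [abs_mul, abs_of_nonneg (by norm_num : (0:ℝ) ≤ 4)] at this
    linarith
  have g2 : |γ.im| ≤ (1 / 2) * (|2 * γ.re + γ.im| + |2 * γ.re - γ.im|) := by
    have : |2 * γ.im| ≤ |2 * γ.re + γ.im| + |2 * γ.re - γ.im| := by
      have : 2 * γ.im = (2 * γ.re + γ.im) - (2 * γ.re - γ.im) := by ring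
      rw [this]; exact abs_sub _ _
    rw [abs_mul, abs_of_nonneg (by norm_num : (0:ℝ) ≤ 2)] at this
    linarith
  rw [← hcγ] at hγ1
  linarith [norm_nonneg c]

lemma exists_eps : ∃ ε : ℝ, 0 < ε ∧ ε ≤ 1 / 1000 ∧ ∀ t e : ℂ, normSq e = 1 → ‖t‖ ≤ 30 →
    D ε t ((2 + I) * e) = 0 → D ε t ((2 - I) * e) = 0 →
    S ε t ((2 + I) * e) = S ε t ((2 - I) * e) → False := by
  set Z : Set (ℂ × ℂ × ℝ) := {x | ‖x.1‖ ≤ 30 ∧ normSq x.2.1 = 1 ∧ 0 ≤ x.2.2 ∧ x.2.2 ≤ 1 / 1000 ∧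
    D x.2.2 x.1 ((2 + I) * x.2.1) = 0 ∧ D x.2.2 x.1 ((2 - I) * x.2.1) = 0 ∧
    S x.2.2 x.1 ((2 + I) * x.2.1) = S x.2.2 x.1 ((2 - I) * x.2.1)} with hZ
  have hcD1 : Continuous fun x : ℂ × ℂ × ℝ => D x.2.2 x.1 ((2 + I) * x.2.1) := by
    unfold D M; simp only [Complex.normSq_apply, Complex.mul_re, Complex.conj_re, Complex.conj_im]
    fun_prop
  have hcD2 : Continuous fun x : ℂ × ℂ × ℝ => D x.2.2 x.1 ((2 - I) * x.2.1) := by
    unfold D M; simp only [Complex.normSq_apply, Complex.mul_re, Complex.conj_re, Complex.conj_im]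
    fun_prop
  have hcS1 : Continuous fun x : ℂ × ℂ × ℝ => S x.2.2 x.1 ((2 + I) * x.2.1) := by
    unfold S M; simp only [Complex.normSq_apply, Complex.mul_re, Complex.conj_re, Complex.conj_im]
    fun_prop
  have hcS2 : Continuous fun x : ℂ × ℂ × ℝ => S x.2.2 x.1 ((2 - I) * x.2.1) := by
    unfold S M; simp only [Complex.normSq_apply, Complex.mul_re, Complex.conj_re, Complex.conj_im]
    fun_prop
  have hcn : Continuous fun x : ℂ × ℂ × ℝ => normSq x.2.1 := by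
    simp only [Complex.normSq_apply]; fun_prop
  have hclosed : IsClosed Z := by
    have : Z = {x | ‖x.1‖ ≤ 30} ∩ ({x | normSq x.2.1 = 1} ∩ ({x | 0 ≤ x.2.2} ∩
      ({x | x.2.2 ≤ 1 / 1000} ∩ ({x | D x.2.2 x.1 ((2 + I) * x.2.1) = 0} ∩
      ({x | D x.2.2 x.1 ((2 - I) * x.2.1) = 0} ∩
      {x | S x.2.2 x.1 ((2 + I) * x.2.1) = S x.2.2 x.1 ((2 - I) * x.2.1)}))))) := by
      ext x; simp [hZ]
    rw [this]
    refine (isClosed_le (by fun_prop) continuous_const).inter ?_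
    refine (isClosed_eq hcn continuous_const).inter ?_
    refine (isClosed_le continuous_const (by fun_prop)).inter ?_
    refine (isClosed_le (by fun_prop) continuous_const).inter ?_
    refine (isClosed_eq hcD1 continuous_const).inter ?_
    refine (isClosed_eq hcD2 continuous_const).inter ?_
    exact isClosed_eq hcS1 hcS2
  have hcompact : IsCompact Z := by
    refine IsCompact.of_isClosed_subset (s := Metric.closedBall (0 : ℂ) 30 ×ˢ
      (Metric.closedBall (0 : ℂ) 1 ×ˢ Set.Icc (0 : ℝ) (1 / 1000)))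
      ((isCompact_closedBall _ _).prod ((isCompact_closedBall _ _).prod isCompact_Icc)) hclosed ?_
    rintro ⟨t, e, ε⟩ ⟨h1, h2, h3, h4, -⟩
    refine ⟨by simpa using h1, ?_, h3, h4⟩
    have : ‖e‖ ^ 2 = 1 := by rw [← Complex.normSq_eq_norm_sq]; exact h2
    have : ‖e‖ ≤ 1 := by nlinarith [norm_nonneg e]
    simpa using this
  rcases Set.eq_empty_or_nonempty Z with hemp | hne
  · refine ⟨1 / 1000, by norm_num, le_refl _, fun t e he ht h1 h2 h3 => ?_⟩
    have : (t, e, (1 / 1000 : ℝ)) ∈ Z := ⟨ht, he, by norm_num, le_refl _, h1, h2, h3⟩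
    rw [hemp] at this
    exact this
  · obtain ⟨x0, hx0, hmin⟩ := hcompact.exists_isMinOn hne
      (f := fun x : ℂ × ℂ × ℝ => x.2.2) (by fun_prop)
    obtain ⟨t0, e0, ε0⟩ := x0
    obtain ⟨g1, g2, g3, g4, g5, g6, g7⟩ := hx0
    simp only at g1 g2 g3 g4 g5 g6 g7
    have hpos : 0 < ε0 := by
      rcases g3.lt_or_eq with h | h
      · exact h
      · exfalso
        subst h
        exact no_zero t0 e0 g2 g5 g6 g7
    refine ⟨ε0 / 2, by linarith, by linarith, fun t e he ht h1 h2 h3 => ?_⟩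
    have hmem : (t, e, ε0 / 2) ∈ Z := ⟨ht, he, by simp only; linarith, by simp only; linarith, h1, h2, h3⟩
    have := isMinOn_iff.mp hmin _ hmem
    simp only at this
    linarith

/-- The main construction in complex coordinates. -/
lemma main_complex : ∃ F : ℂ → ℝ, Continuous F ∧ (∀ z, 0 ≤ F z) ∧ (∀ z, 3 ≤ ‖z‖ → F z = 0) ∧
    ∀ c e : ℂ, normSq e = 1 → ‖c‖ < 3 → ∀ lam : ℝ,
      F (c + (2 + I) * e) = lam → F (c - (2 + I) * e) = lam →
      F (c + (2 - I) * e) = lam → F (c - (2 - I) * e) = lam → False := by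
  obtain ⟨ε, hε, hε1, hbad⟩ := exists_eps
  refine ⟨fun z => max 0 (min (P ε z) (9 - normSq z)), ?_, fun z => le_max_left _ _, ?_, ?_⟩
  · unfold P M; simp only [Complex.normSq_apply]; fun_prop
  · intro z hz
    have : 9 ≤ normSq z := by rw [Complex.normSq_eq_norm_sq]; nlinarith
    apply max_eq_left
    exact (min_le_right _ _).trans (by linarith)
  · intro c e he hc lam h1 h2 h3 h4
    simp only at h1 h2 h3 h4
    -- facts about a vertex with value lam > 0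
    have hval : ∀ z : ℂ, max 0 (min (P ε z) (9 - normSq z)) = lam → 0 < lam →
        ‖z‖ ≤ 3 ∧ P ε z = lam := by
      intro z hz hl
      have h5 : min (P ε z) (9 - normSq z) = lam := by
        rcases max_cases 0 (min (P ε z) (9 - normSq z)) with ⟨h, -⟩ | ⟨h, -⟩
        · rw [h] at hz; linarith
        · rw [h] at hz; exact hz
      have h6 : lam ≤ 9 - normSq z := h5 ▸ min_le_right _ _
      have h7 : ‖z‖ ≤ 3 := by
        have : ‖z‖ ^ 2 ≤ 9 := by rw [← Complex.normSq_eq_norm_sq]; linarith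
        nlinarith [norm_nonneg z]
      refine ⟨h7, ?_⟩
      have h8 := abs_le.mp (P_bound ε hε.le hε1 z h7)
      rwa [min_eq_left (by linarith [h8.2])] at h5
    -- a vertex near the origin has positive value
    have hposv : ∀ z : ℂ, max 0 (min (P ε z) (9 - normSq z)) = lam → normSq z ≤ 8 → 0 < lam := by
      intro z hz h8
      have h7 : ‖z‖ ≤ 3 := by
        have : ‖z‖ ^ 2 ≤ 9 := by rw [← Complex.normSq_eq_norm_sq]; linarith
        nlinarith [norm_nonneg z]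
      have h9 := abs_le.mp (P_bound ε hε.le hε1 z h7)
      rw [← hz]
      apply lt_max_of_lt_right
      apply lt_min <;> linarith [h9.1]
    have hc9 : normSq c < 9 := by
      rw [Complex.normSq_eq_norm_sq]; nlinarith [norm_nonneg c]
    have hlam : 0 < lam := by
      set γ := c * (starRingEnd ℂ) e with hγ
      have hcγ : c = γ * e := by
        rw [hγ, mul_assoc, mul_comm ((starRingEnd ℂ) e) e, Complex.mul_conj, he]; simp
      have hnc : normSq c = γ.re ^ 2 + γ.im ^ 2 := by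
        rw [hcγ, Complex.normSq_mul, he, mul_one, Complex.normSq_apply]; ring
      have v1 : normSq (c + (2 + I) * e) = (γ.re + 2) ^ 2 + (γ.im + 1) ^ 2 := by
        have : c + (2 + I) * e = (γ + (2 + I)) * e := by rw [hcγ]; ring
        rw [this, Complex.normSq_mul, he, mul_one, Complex.normSq_apply]
        simp; ring
      have v2 : normSq (c - (2 + I) * e) = (γ.re - 2) ^ 2 + (γ.im - 1) ^ 2 := by
        have : c - (2 + I) * e = (γ - (2 + I)) * e := by rw [hcγ]; ring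
        rw [this, Complex.normSq_mul, he, mul_one, Complex.normSq_apply]
        simp; ring
      have v3 : normSq (c + (2 - I) * e) = (γ.re + 2) ^ 2 + (γ.im - 1) ^ 2 := by
        have : c + (2 - I) * e = (γ + (2 - I)) * e := by rw [hcγ]; ring
        rw [this, Complex.normSq_mul, he, mul_one, Complex.normSq_apply]
        simp; ring
      have v4 : normSq (c - (2 - I) * e) = (γ.re - 2) ^ 2 + (γ.im + 1) ^ 2 := by
        have : c - (2 - I) * e = (γ - (2 - I)) * e := by rw [hcγ]; ring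
        rw [this, Complex.normSq_mul, he, mul_one, Complex.normSq_apply]
        simp; ring
      rw [hnc] at hc9
      by_contra hneg
      have w1 : 8 < (γ.re + 2) ^ 2 + (γ.im + 1) ^ 2 := by
        by_contra hh; exact hneg (hposv _ h1 (by rw [v1]; linarith))
      have w2 : 8 < (γ.re - 2) ^ 2 + (γ.im - 1) ^ 2 := by
        by_contra hh; exact hneg (hposv _ h2 (by rw [v2]; linarith))
      have w3 : 8 < (γ.re + 2) ^ 2 + (γ.im - 1) ^ 2 := by
        by_contra hh; exact hneg (hposv _ h3 (by rw [v3]; linarith))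
      have w4 : 8 < (γ.re - 2) ^ 2 + (γ.im + 1) ^ 2 := by
        by_contra hh; exact hneg (hposv _ h4 (by rw [v4]; linarith))
      have w : 3 + 4 * |γ.re| + 2 * |γ.im| < |γ.re| ^ 2 + |γ.im| ^ 2 := by
        rw [sq_abs, sq_abs]
        rcases abs_cases γ.re with ⟨ha, -⟩ | ⟨ha, -⟩ <;>
        rcases abs_cases γ.im with ⟨hb, -⟩ | ⟨hb, -⟩ <;> rw [ha, hb] <;> linarith
      have hc9' : |γ.re| ^ 2 + |γ.im| ^ 2 < 9 := by rw [sq_abs, sq_abs]; exact hc9
      have p0 := abs_nonneg γ.re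
      have q0 := abs_nonneg γ.im
      generalize |γ.re| = p at *
      generalize |γ.im| = q at *
      nlinarith [mul_nonneg p0 q0]
    obtain ⟨n1, p1⟩ := hval _ h1 hlam
    obtain ⟨n2, p2⟩ := hval _ h2 hlam
    obtain ⟨n3, p3⟩ := hval _ h3 hlam
    obtain ⟨n4, p4⟩ := hval _ h4 hlam
    have hcb := c_bound ε hε.le hε1 c e he hc.le n1 n2 n3 n4 (by rw [p1, p2]) (by rw [p3, p4])
    -- rescale
    obtain ⟨t, ht⟩ : ∃ t : ℂ, c = ε * t := ⟨c / ε, by
      have : (ε : ℂ) ≠ 0 := by exact_mod_cast hε.ne'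
      field_simp⟩
    have htn : ‖t‖ ≤ 30 := by
      rw [ht, norm_mul, Complex.norm_real, Real.norm_of_nonneg hε.le] at hcb
      by_contra hh
      rw [not_le] at hh
      nlinarith
    have hd1 : normSq ((2 + I) * e) = 5 := by
      rw [Complex.normSq_mul, he]; simp [Complex.normSq_apply]; norm_num
    have hd2 : normSq ((2 - I) * e) = 5 := by
      rw [Complex.normSq_mul, he]; simp [Complex.normSq_apply]; norm_num
    subst ht
    have D1 := diff_eq ε t _ hd1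
    have D2 := diff_eq ε t _ hd2
    have S1 := sum_eq ε t _ hd1
    have S2 := sum_eq ε t _ hd2
    rw [p1, p2] at D1 S1
    rw [p3, p4] at D2 S2
    refine hbad t e he htn ?_ ?_ ?_
    · have : ε * D ε t ((2 + I) * e) = 0 := by linarith
      rcases mul_eq_zero.mp this with h | h
      · linarith
      · exact h
    · have : ε * D ε t ((2 - I) * e) = 0 := by linarith
      rcases mul_eq_zero.mp this with h | h
      · linarith
      · exact h
    · have : ε ^ 2 * (S ε t ((2 + I) * e) - S ε t ((2 - I) * e)) = 0 := by linarith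
      rcases mul_eq_zero.mp this with h | h
      · have := pow_pos hε 2; linarith
      · linarith

end Pool.Agent.H40.RectAux
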