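import Mathlib
import Pool.Agent.H40.GeoBase

namespace H40Tight

open Finset Function

set_option linter.unusedSectionVars false

variable {V : Type} [Fintype V] [DecidableEq V]

/-- a large independent set does not catch `p` with three of its members -/
theorem indep_large {A : V → Set Pl} {m : ℕ} (hm : 3 ≤ m)
    (hT : ∀ s : Finset V, s.card = m → Tight A s) {p : Pl} {W : Finset V}
    (hW : ∀ i ∈ W, ∀ j ∈ W, ¬ adj A p i j) {i j k : V} (hi : i ∈ W) (hj : j ∈ W) (hk : k ∈ W)
    (hp : p ∈ convexHull ℝ (A i ∪ A j ∪ A k)) : W.card < m := by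
  by_contra hcard
  push Not at hcard
  have h1 : ({i, j, k} : Finset V) ⊆ W := by
    intro v hv
    simp only [mem_insert, mem_singleton] at hv
    rcases hv with rfl | rfl | rfl
    · exact hi
    · exact hj
    · exact hk
  have h2 : ({i, j, k} : Finset V).card ≤ m := card_le_three.trans hm
  obtain ⟨W', hs1, hs2, hW'⟩ := Finset.exists_subsuperset_card_eq h1 h2 hcard
  have hconv := hT W' hW'
  have hsub : ∀ u ∈ W', A u ⊆ {x : Pl | ∃ i ∈ W', ∃ j ∈ W', i ≠ j ∧
      x ∈ convexHull ℝ (A i ∪ A j)} := by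
    intro u hu x hx
    obtain ⟨u', hu', hne⟩ := Finset.exists_mem_ne (by omega : 1 < W'.card) u
    exact ⟨u, hu, u', hu', hne.symm, subset_convexHull ℝ _ (Or.inl hx)⟩
  have h3 : convexHull ℝ (A i ∪ A j ∪ A k) ⊆ {x : Pl | ∃ i ∈ W', ∃ j ∈ W', i ≠ j ∧
      x ∈ convexHull ℝ (A i ∪ A j)} := by
    refine convexHull_min ?_ hconv
    refine Set.union_subset (Set.union_subset ?_ ?_) ?_
    · exact hsub i (hs1 (by simp))
    · exact hsub j (hs1 (by simp))
    · exact hsub k (hs1 (by simp))
  obtain ⟨a, ha, b, hb, hab, hpab⟩ := h3 hp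
  exact hW a (hs2 ha) b (hs2 hb) ⟨hab, hpab⟩

/-- one convex region missing `p` contains few non-neighbours -/
theorem few_in_region {A : V → Set Pl} {m : ℕ} (hm : 3 ≤ m)
    (hT : ∀ s : Finset V, s.card = m → Tight A s) {p : Pl} {R J' : Finset V}
    (hR : ∀ i ∈ R, ∀ j ∈ R, ¬ adj A p i j)
    {i j k : V} (hi : i ∈ R) (hj : j ∈ R) (hk : k ∈ R) (hij : i ≠ j) (hik : i ≠ k) (hjk : j ≠ k)
    (hp : p ∈ convexHull ℝ (A i ∪ A j ∪ A k))
    (hJ : ∀ d ∈ J', d ≠ i ∧ d ≠ j ∧ d ≠ k ∧ ∀ r ∈ R, ¬ adj A p r d)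
    {S : Set Pl} (hS : Convex ℝ S) (hpS : p ∉ S) (hJS : ∀ d ∈ J', A d ⊆ S) :
    J'.card + 3 < m := by
  have h3 : ({i, j, k} : Finset V).card = 3 := Finset.card_eq_three.2 ⟨i, j, k, hij, hik, hjk, rfl⟩
  have hd : Disjoint J' {i, j, k} := by
    rw [Finset.disjoint_left]
    intro d hd hd2
    obtain ⟨h1, h2, h3, -⟩ := hJ d hd
    simp only [mem_insert, mem_singleton] at hd2
    rcases hd2 with h | h | h
    · exact h1 h
    · exact h2 h
    · exact h3 h
  have hin : ∀ u ∈ ({i, j, k} : Finset V), u ∈ R := by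
    intro u hu
    simp only [mem_insert, mem_singleton] at hu
    rcases hu with rfl | rfl | rfl
    · exact hi
    · exact hj
    · exact hk
  have hind : ∀ a ∈ J' ∪ {i, j, k}, ∀ b ∈ J' ∪ {i, j, k}, ¬ adj A p a b := by
    intro a ha b hb
    rcases mem_union.1 ha with ha | ha <;> rcases mem_union.1 hb with hb | hb
    · rintro ⟨-, h⟩
      exact hpS (convexHull_min (Set.union_subset (hJS a ha) (hJS b hb)) hS h)
    · intro h
      exact (hJ a ha).2.2.2 b (hin b hb) (adj_symm A p _ _ h)
    · exact (hJ b hb).2.2.2 a (hin a ha)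
    · exact hR a (hin a ha) b (hin b hb)
  have := indep_large hm hT hind (i := i) (j := j) (k := k) (by simp) (by simp) (by simp) hp
  rw [card_union_of_disjoint hd, h3] at this
  exact this

theorem cont_coord (i : Fin 2) : Continuous (fun q : Pl => q i) := by fun_prop

theorem coord (u v r : Pl) (hD : u 0 * v 1 - u 1 * v 0 ≠ 0) :
    r = ((r 0 * v 1 - r 1 * v 0) / (u 0 * v 1 - u 1 * v 0)) • u +
      ((u 0 * r 1 - u 1 * r 0) / (u 0 * v 1 - u 1 * v 0)) • v := by
  ext e
  have key : ∀ X Y a b c : ℝ, X * a + Y * b = c * (u 0 * v 1 - u 1 * v 0) →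
      c = X / (u 0 * v 1 - u 1 * v 0) * a + Y / (u 0 * v 1 - u 1 * v 0) * b := by
    intro X Y a b c h
    rw [div_mul_eq_mul_div, div_mul_eq_mul_div, ← add_div, h, mul_div_assoc, div_self hD, mul_one]
  fin_cases e
  · exact key _ _ _ _ _ (by simp; ring)
  · exact key _ _ _ _ _ (by simp; ring)

/-- the geometric lemma -/
theorem no_hull {A : V → Set Pl} (hconv : ∀ i, Convex ℝ (A i)) (hne : ∀ i, (A i).Nonempty)
    {m : ℕ} (hm : 3 ≤ m) (hV2 : 2 ≤ Fintype.card V) (hn : 4 * m ≤ Fintype.card V + 10)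
    (hT : ∀ s : Finset V, s.card = m → Tight A s) {p : Pl} {R : Finset V}
    (hR : ∀ i ∈ R, ∀ j ∈ R, ¬ adj A p i j) (hdef : 0 < dfc (adj A p) R) :
    p ∉ convexHull ℝ (⋃ i ∈ R, A i) := by
  intro hpR
  -- no member of R contains p
  have hnot : ∀ i ∈ R, p ∉ A i := by
    intro i hi hpi
    by_cases h : ∃ j ∈ R, j ≠ i
    · obtain ⟨j, hj, hji⟩ := h
      exact hR i hi j hj (adj_of_mem hji.symm hpi)
    · push Not at h
      have h1 : R = {i} := by
        ext v
        rw [mem_singleton]
        constructor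
        · intro hv; exact h v hv
        · rintro rfl; exact hi
      have h2 : nb (adj A p) R = univ.erase i := by
        ext v
        rw [mem_nb, mem_erase]
        constructor
        · rintro ⟨x, hx, hxv⟩
          rw [h1, mem_singleton] at hx
          subst hx
          exact ⟨hxv.1.symm, mem_univ _⟩
        · rintro ⟨hv, -⟩
          exact ⟨i, hi, adj_of_mem hv.symm hpi⟩
      unfold dfc at hdef
      rw [h2, h1, card_singleton, card_erase_of_mem (mem_univ _), card_univ] at hdef
      omega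
  obtain ⟨a, ha, b, hb, c, hc, x, y, z, hx, hy, hz, hxyz, hsum⟩ := cara3 hpR
  simp only [Set.mem_iUnion, exists_prop] at ha hb hc
  obtain ⟨i, hi, ha⟩ := ha
  obtain ⟨j, hj, hb⟩ := hb
  obtain ⟨k, hk, hc⟩ := hc
  -- p in the hull of the three members
  have hp3 : ∀ S : Set Pl, a ∈ S → b ∈ S → c ∈ S → p ∈ convexHull ℝ S := by
    intro S h1 h2 h3
    rw [← hsum]
    exact (convex_convexHull ℝ S).sum_mem (t := (univ : Finset (Fin 3)))
      (w := ![x, y, z]) (z := ![a, b, c])
      (by intro i _; fin_cases i <;> simp [hx, hy, hz])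
      (by simp [Fin.sum_univ_three, hxyz])
      (by
        intro i _
        fin_cases i
        · exact subset_convexHull ℝ S h1
        · exact subset_convexHull ℝ S h2
        · exact subset_convexHull ℝ S h3) |> fun h => by
          simpa [Fin.sum_univ_three] using h
  have hself : ∀ u ∈ R, p ∉ convexHull ℝ (A u) := by
    intro u hu h
    rw [(hconv u).convexHull_eq] at h
    exact hnot u hu h
  have hpair : ∀ u ∈ R, ∀ v ∈ R, p ∉ convexHull ℝ (A u ∪ A v) := by
    intro u hu v hv h
    by_cases huv : u = v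
    · subst huv
      rw [Set.union_self] at h
      exact hself u hu h
    · exact hR u hu v hv ⟨huv, h⟩
  have hij : i ≠ j := by
    rintro rfl
    exact hpair i hi k hk (hp3 _ (Or.inl ha) (Or.inl hb) (Or.inr hc))
  have hik : i ≠ k := by
    rintro rfl
    exact hpair i hi j hj (hp3 _ (Or.inl ha) (Or.inr hb) (Or.inl hc))
  have hjk : j ≠ k := by
    rintro rfl
    exact hpair i hi j hj (hp3 _ (Or.inl ha) (Or.inr hb) (Or.inr hc))
  have hp3' : p ∈ convexHull ℝ (A i ∪ A j ∪ A k) :=
    hp3 _ (Or.inl (Or.inl ha)) (Or.inl (Or.inr hb)) (Or.inr hc)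
  -- the three vectors
  have hvec : x • (a - p) + y • (b - p) + z • (c - p) = 0 := by
    have : x • (a - p) + y • (b - p) + z • (c - p) = (x • a + y • b + z • c) - (x + y + z) • p := by
      simp only [smul_sub, add_smul]; abel
    rw [this, hsum, hxyz, one_smul, sub_self]
  have hx0 : 0 < x := by
    rcases hx.lt_or_eq with h | h
    · exact h
    · exfalso
      rw [← h, zero_smul, zero_add] at hvec
      exact hpair j hj k hk (mem_hull_of (Or.inl hb) (Or.inr hc) hy hz (by linarith) hvec)
  have hy0 : 0 < y := by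
    rcases hy.lt_or_eq with h | h
    · exact h
    · exfalso
      rw [← h, zero_smul, add_zero] at hvec
      exact hpair i hi k hk (mem_hull_of (Or.inl ha) (Or.inr hc) hx hz (by linarith) hvec)
  have hz0 : 0 < z := by
    rcases hz.lt_or_eq with h | h
    · exact h
    · exfalso
      rw [← h, zero_smul, add_zero] at hvec
      exact hpair i hi j hj (mem_hull_of (Or.inl ha) (Or.inr hb) hx hy (by linarith) hvec)
  set u : Pl := x • (a - p) with hu
  set v : Pl := y • (b - p) with hv
  set w : Pl := z • (c - p) with hw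
  have hwuv : w = -(u + v) := by
    rw [eq_neg_iff_add_eq_zero, add_comm]; exact hvec
  have hap : a - p ≠ 0 := by
    intro h
    rw [sub_eq_zero] at h
    exact hnot i hi (h ▸ ha)
  have hu0 : u ≠ 0 := by
    rw [hu]
    exact smul_ne_zero hx0.ne' hap
  -- determinant is nonzero
  have hdet : u 0 * v 1 - u 1 * v 0 ≠ 0 := by
    intro h0
    obtain ⟨t, ht⟩ := par hu0 h0
    rcases le_or_gt t 0 with ht0 | ht0
    · refine hpair i hi j hj (mem_hull_of (a := a) (b := b) (Or.inl ha) (Or.inr hb)
        (x := -t * x) (y := y) (mul_nonneg (by linarith) hx0.le) hy0.le ?_ ?_)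
      · have := mul_nonneg (neg_nonneg.2 ht0) hx0.le
        linarith
      · rw [mul_smul, ← hu, ← hv, ht, neg_smul, neg_add_cancel]
    · refine hpair i hi k hk (mem_hull_of (a := a) (b := c) (Or.inl ha) (Or.inr hc)
        (x := (1 + t) * x) (y := z) (by positivity) hz0.le (by positivity) ?_)
      rw [mul_smul, ← hu, ← hw, hwuv, ht, add_smul, one_smul, add_neg_cancel]
  set D : ℝ := u 0 * v 1 - u 1 * v 0 with hD
  -- coordinates
  let s : Pl → ℝ := fun q => ((q - p) 0 * v 1 - (q - p) 1 * v 0) / D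
  let t : Pl → ℝ := fun q => (u 0 * (q - p) 1 - u 1 * (q - p) 0) / D
  have hcoord : ∀ q, q - p = s q • u + t q • v := fun q => coord u v (q - p) hdet
  have hsc : Continuous s := by
    simp only [s]
    fun_prop
  have htc : Continuous t := by
    simp only [t]
    fun_prop
  have hsl : ∀ (α β : ℝ) (q r : Pl), α + β = 1 → s (α • q + β • r) = α * s q + β * s r := by
    intro α β q r h
    have hβ : β = 1 - α := by linarith
    subst hβ
    simp only [s]
    simp
    field_simp
    ring
  have htl : ∀ (α β : ℝ) (q r : Pl), α + β = 1 → t (α • q + β • r) = α * t q + β * t r := by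
    intro α β q r h
    have hβ : β = 1 - α := by linarith
    subst hβ
    simp only [t]
    simp
    field_simp
    ring
  have hsp : s p = 0 := by simp [s]
  have htp : t p = 0 := by simp [t]
  -- sectors
  let S1 : Set Pl := {q | s q < 0 ∧ t q < 0}
  let S2 : Set Pl := {q | 0 < s q ∧ t q < s q}
  let S3 : Set Pl := {q | 0 < t q ∧ s q < t q}
  have ho1 : IsOpen S1 := (isOpen_lt hsc continuous_const).inter (isOpen_lt htc continuous_const)
  have ho2 : IsOpen S2 := (isOpen_lt continuous_const hsc).inter (isOpen_lt htc hsc)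
  have ho3 : IsOpen S3 := (isOpen_lt continuous_const htc).inter (isOpen_lt hsc htc)
  have hcomb : ∀ (α β X Y : ℝ), 0 ≤ α → 0 ≤ β → α + β = 1 → 0 < X → 0 < Y → 0 < α * X + β * Y := by
    intro α β X Y h1 h2 h3 h4 h5
    rcases h1.lt_or_eq with h | h
    · have := mul_pos h h4
      have := mul_nonneg h2 h5.le
      linarith
    · have hb1 : β = 1 := by linarith
      rw [← h, hb1]
      linarith
  have hc1 : Convex ℝ S1 := by
    intro q hq r hr α β h1 h2 h3
    refine ⟨?_, ?_⟩
    · rw [hsl _ _ _ _ h3]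
      have := hcomb α β (-s q) (-s r) h1 h2 h3 (by linarith [hq.1]) (by linarith [hr.1])
      linarith
    · rw [htl _ _ _ _ h3]
      have := hcomb α β (-t q) (-t r) h1 h2 h3 (by linarith [hq.2]) (by linarith [hr.2])
      linarith
  have hc2 : Convex ℝ S2 := by
    intro q hq r hr α β h1 h2 h3
    refine ⟨?_, ?_⟩
    · rw [hsl _ _ _ _ h3]
      exact hcomb α β (s q) (s r) h1 h2 h3 hq.1 hr.1
    · rw [htl _ _ _ _ h3, hsl _ _ _ _ h3]
      have := hcomb α β (s q - t q) (s r - t r) h1 h2 h3 (by linarith [hq.2]) (by linarith [hr.2])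
      linarith
  have hc3 : Convex ℝ S3 := by
    intro q hq r hr α β h1 h2 h3
    refine ⟨?_, ?_⟩
    · rw [htl _ _ _ _ h3]
      exact hcomb α β (t q) (t r) h1 h2 h3 hq.1 hr.1
    · rw [htl _ _ _ _ h3, hsl _ _ _ _ h3]
      have := hcomb α β (t q - s q) (t r - s r) h1 h2 h3 (by linarith [hq.2]) (by linarith [hr.2])
      linarith
  have hp1 : p ∉ S1 := by
    intro h
    have := h.1
    rw [hsp] at this
    exact lt_irrefl _ this
  have hp2 : p ∉ S2 := by
    intro h
    have := h.1
    rw [hsp] at this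
    exact lt_irrefl _ this
  have hp3'' : p ∉ S3 := by
    intro h
    have := h.1
    rw [htp] at this
    exact lt_irrefl _ this
  -- the non-neighbours
  let J : Finset V := univ \ nb (adj A p) R
  have hJcard : Fintype.card V + 1 ≤ J.card + R.card := by
    have h1 : J.card = Fintype.card V - (nb (adj A p) R).card := by
      simp only [J]
      rw [card_sdiff_of_subset (subset_univ _), card_univ]
    unfold dfc at hdef
    have h2 : (nb (adj A p) R).card ≤ Fintype.card V := card_le_univ _
    omega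
  let J' : Finset V := ((J.erase i).erase j).erase k
  have hJ'card : J.card ≤ J'.card + 3 := by
    have h1 : J.card - 1 ≤ (J.erase i).card := Finset.pred_card_le_card_erase
    have h2 : (J.erase i).card - 1 ≤ ((J.erase i).erase j).card := Finset.pred_card_le_card_erase
    have h3 : ((J.erase i).erase j).card - 1 ≤ J'.card := Finset.pred_card_le_card_erase
    omega
  have hJ' : ∀ d ∈ J', d ≠ i ∧ d ≠ j ∧ d ≠ k ∧ ∀ r ∈ R, ¬ adj A p r d := by
    intro d hd
    simp only [J', J, mem_erase, mem_sdiff, mem_univ, true_and] at hd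
    refine ⟨hd.2.2.1, hd.2.1, hd.1, ?_⟩
    intro r hr hrd
    exact hd.2.2.2 (mem_nb.2 ⟨r, hr, hrd⟩)
  -- each of them lies in a sector
  have hsec : ∀ d ∈ J', A d ⊆ S1 ∨ A d ⊆ S2 ∨ A d ⊆ S3 := by
    intro d hd
    obtain ⟨h1, h2, h3, h4⟩ := hJ' d hd
    have hcover : A d ⊆ S1 ∪ (S2 ∪ S3) := by
      intro q hq
      by_contra hno
      -- q on one of three rays
      have hqc := hcoord q
      -- opposite to a
      have hra : ¬ (s q ≤ 0 ∧ t q = 0) := by
        rintro ⟨h5, h6⟩
        apply h4 i hi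
        refine ⟨h1.symm, ?_⟩
        refine mem_hull_of (a := a) (b := q) (Or.inl ha) (Or.inr hq)
          (x := -s q * x) (y := 1) (mul_nonneg (by linarith) hx0.le) zero_le_one ?_ ?_
        · have := mul_nonneg (neg_nonneg.2 h5) hx0.le
          linarith
        · rw [mul_smul, ← hu, hqc, h6, zero_smul, add_zero, one_smul, neg_smul, neg_add_cancel]
      have hrb : ¬ (s q = 0 ∧ t q ≤ 0) := by
        rintro ⟨h5, h6⟩
        apply h4 j hj
        refine ⟨h2.symm, ?_⟩
        refine mem_hull_of (a := b) (b := q) (Or.inl hb) (Or.inr hq)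
          (x := -t q * y) (y := 1) (mul_nonneg (by linarith) hy0.le) zero_le_one ?_ ?_
        · have := mul_nonneg (neg_nonneg.2 h6) hy0.le
          linarith
        · rw [mul_smul, ← hv, hqc, h5, zero_smul, zero_add, one_smul, neg_smul, neg_add_cancel]
      have hrc : ¬ (0 ≤ s q ∧ t q = s q) := by
        rintro ⟨h5, h6⟩
        apply h4 k hk
        refine ⟨h3.symm, ?_⟩
        refine mem_hull_of (a := c) (b := q) (Or.inl hc) (Or.inr hq)
          (x := s q * z) (y := 1) (mul_nonneg h5 hz0.le) zero_le_one ?_ ?_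
        · have := mul_nonneg h5 hz0.le
          linarith
        · rw [mul_smul, ← hw, hwuv, hqc, h6, one_smul, smul_neg, smul_add, neg_add_cancel]
      apply hno
      rcases lt_trichotomy (s q) 0 with h5 | h5 | h5
      · rcases lt_trichotomy (t q) 0 with h6 | h6 | h6
        · exact Or.inl ⟨h5, h6⟩
        · exact absurd ⟨h5.le, h6⟩ hra
        · exact Or.inr (Or.inr ⟨h6, by linarith⟩)
      · rcases le_or_gt (t q) 0 with h6 | h6
        · exact absurd ⟨h5, h6⟩ hrb
        · exact Or.inr (Or.inr ⟨h6, by linarith⟩)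
      · rcases lt_trichotomy (t q) (s q) with h6 | h6 | h6
        · exact Or.inr (Or.inl ⟨h5, h6⟩)
        · exact absurd ⟨h5.le, h6⟩ hrc
        · exact Or.inr (Or.inr ⟨by linarith, h6⟩)
    have hpre : IsPreconnected (A d) := (hconv d).isPreconnected
    have hdis1 : Disjoint S1 (S2 ∪ S3) := by
      rw [Set.disjoint_left]
      rintro q ⟨h5, h6⟩ (⟨h7, h8⟩ | ⟨h7, h8⟩)
      · linarith
      · linarith
    have hdis2 : Disjoint S2 S3 := by
      rw [Set.disjoint_left]
      rintro q ⟨h5, h6⟩ ⟨h7, h8⟩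
      linarith
    rcases hpre.subset_or_subset ho1 (ho2.union ho3) hdis1 hcover with h | h
    · exact Or.inl h
    · rcases hpre.subset_or_subset ho2 ho3 hdis2 h with h | h
      · exact Or.inr (Or.inl h)
      · exact Or.inr (Or.inr h)
  classical
  let F : Set Pl → Finset V := fun S => J'.filter (fun d => A d ⊆ S)
  have hF : ∀ S : Set Pl, Convex ℝ S → p ∉ S → (F S).card + 3 < m := by
    intro S hS hpS
    refine few_in_region hm hT hR hi hj hk hij hik hjk hp3' (J' := F S) ?_ hS hpS ?_
    · intro d hd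
      exact hJ' d (mem_filter.1 hd).1
    · intro d hd
      exact (mem_filter.1 hd).2
  have hcov : J' ⊆ F S1 ∪ F S2 ∪ F S3 := by
    intro d hd
    rw [mem_union, mem_union, mem_filter, mem_filter, mem_filter]
    rcases hsec d hd with h | h | h
    · exact Or.inl (Or.inl ⟨hd, h⟩)
    · exact Or.inl (Or.inr ⟨hd, h⟩)
    · exact Or.inr ⟨hd, h⟩
  have h1 := hF S1 hc1 hp1
  have h2 := hF S2 hc2 hp2
  have h3 := hF S3 hc3 hp3''
  have h4 : J'.card ≤ (F S1).card + (F S2).card + (F S3).card :=
    (card_le_card hcov).trans ((card_union_le _ _).trans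
      (Nat.add_le_add_right (card_union_le _ _) _))
  have h5 := indep_large hm hT hR hi hj hk hp3'
  omega

end H40Tight
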