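import Mathlib
import Pool.Agent.H40.Sector
import Pool.Agent.H40.Brouwer2

namespace H40Tight

open Finset Function

set_option linter.unusedSectionVars false

variable {V : Type} [Fintype V] [DecidableEq V]

theorem compact_hull {A B : Set Pl} (hA : Convex ℝ A) (hB : Convex ℝ B) (hA0 : A.Nonempty)
    (hB0 : B.Nonempty) (hAc : IsCompact A) (hBc : IsCompact B) :
    IsCompact (convexHull ℝ (A ∪ B)) := by
  have h : convexHull ℝ (A ∪ B) =
      (fun z : (Pl × Pl) × ℝ => (1 - z.2) • z.1.1 + z.2 • z.1.2) ''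
        ((A ×ˢ B) ×ˢ Set.Icc (0:ℝ) 1) := by
    rw [hA.convexHull_union hB hA0 hB0]
    ext q
    rw [mem_convexJoin]
    constructor
    · rintro ⟨a, ha, b, hb, x, y, hx, hy, hxy, h⟩
      refine ⟨((a, b), y), ⟨⟨ha, hb⟩, ⟨hy, by linarith⟩⟩, ?_⟩
      have : 1 - y = x := by linarith
      simp only [this]
      exact h
    · rintro ⟨⟨⟨a, b⟩, y⟩, ⟨⟨ha, hb⟩, ⟨hy0, hy1⟩⟩, h⟩
      exact ⟨a, ha, b, hb, 1 - y, y, by simpa using hy1, hy0, by ring, h⟩
  rw [h]
  refine ((hAc.prod hBc).prod isCompact_Icc).image ?_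
  fun_prop

/-- distance to the pair hull -/
noncomputable def cd (A : V → Set Pl) (i j : V) (q : Pl) : ℝ :=
  Metric.infDist q (convexHull ℝ (A i ∪ A j))

theorem cd_cont (A : V → Set Pl) (i j : V) : Continuous (cd A i j) :=
  Metric.continuous_infDist_pt _

theorem cd_lip (A : V → Set Pl) (i j : V) (q r : Pl) : cd A i j q ≤ cd A i j r + dist q r :=
  Metric.infDist_le_infDist_add_dist

theorem cd_zero {A : V → Set Pl} (hconv : ∀ i, Convex ℝ (A i)) (hne : ∀ i, (A i).Nonempty)
    (hcpt : ∀ i, IsCompact (A i)) {i j : V} {q : Pl} (h : cd A i j q ≤ 0) :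
    q ∈ convexHull ℝ (A i ∪ A j) := by
  have hcl := (compact_hull (hconv i) (hconv j) (hne i) (hne j) (hcpt i) (hcpt j)).isClosed
  rw [hcl.mem_iff_infDist_zero (((hne i).mono Set.subset_union_left).mono
    (subset_convexHull ℝ _))]
  exact le_antisymm h Metric.infDist_nonneg

/-- thickened graph -/
def Gr (A : V → Set Pl) (q : Pl) (ε : ℝ) (i j : V) : Prop := i ≠ j ∧ cd A i j q ≤ ε

theorem Gr_symm (A : V → Set Pl) (q : Pl) (ε : ℝ) (i j : V) (h : Gr A q ε i j) :
    Gr A q ε j i := by
  refine ⟨h.1.symm, ?_⟩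
  have := h.2
  unfold cd at this ⊢
  rwa [Set.union_comm]

theorem adj_Gr {A : V → Set Pl} {q : Pl} {ε : ℝ} (hε : 0 ≤ ε) (i j : V) (h : adj A q i j) :
    Gr A q ε i j := by
  refine ⟨h.1, ?_⟩
  unfold cd
  rw [Metric.infDist_zero_of_mem h.2]
  exact hε

theorem Gr_mono {A : V → Set Pl} {q : Pl} {ε ε' : ℝ} (hε : ε ≤ ε') (i j : V)
    (h : Gr A q ε i j) : Gr A q ε' i j := ⟨h.1, h.2.trans hε⟩

/-- existence of a point with Hall's condition -/
theorem exists_hall [Nonempty V] {A : V → Set Pl} (hconv : ∀ i, Convex ℝ (A i))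
    (hne : ∀ i, (A i).Nonempty) (hcpt : ∀ i, IsCompact (A i))
    {m : ℕ} (hm : 3 ≤ m) (hV2 : 2 ≤ Fintype.card V) (hn : 4 * m ≤ Fintype.card V + 10)
    (hT : ∀ s : Finset V, s.card = m → Tight A s) :
    ∃ p : Pl, ∀ X, dfc (adj A p) X ≤ 0 := by
  classical
  by_contra hno
  push Not at hno
  -- big disc
  obtain ⟨R0, hR0, hball⟩ : ∃ R0 : ℝ, 0 < R0 ∧ ∀ i, A i ⊆ Metric.closedBall 0 R0 := by
    have hb : Bornology.IsBounded (⋃ i, A i) := (isCompact_iUnion hcpt).isBounded
    obtain ⟨r, hr⟩ := hb.subset_closedBall (0 : Pl)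
    refine ⟨max r 1, lt_max_of_lt_right one_pos, fun i => ?_⟩
    exact (Set.subset_iUnion A i).trans (hr.trans (Metric.closedBall_subset_closedBall (le_max_left _ _)))
  have hK : IsCompact (Metric.closedBall (0 : Pl) R0) := isCompact_closedBall _ _
  -- uniform epsilon
  obtain ⟨ε0, hε0, hviol⟩ : ∃ ε0 : ℝ, 0 < ε0 ∧ ∀ q ∈ Metric.closedBall (0 : Pl) R0,
      ∃ X, 0 < dfc (Gr A q ε0) X := by
    have h1 : ∀ᶠ ε in nhds (0 : ℝ), ∀ q ∈ Metric.closedBall (0 : Pl) R0,
        ∃ X, 0 < dfc (Gr A q ε) X := by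
      refine hK.eventually_forall_of_forall_eventually ?_
      intro q _
      obtain ⟨X, hX⟩ := hno q
      have h2 : ∀ i j : V, ∀ᶠ z : ℝ × Pl in nhds (0, q), Gr A z.2 z.1 i j → adj A q i j := by
        intro i j
        by_cases hij : adj A q i j
        · exact Filter.Eventually.of_forall (fun z _ => hij)
        · by_cases hne' : i = j
          · exact Filter.Eventually.of_forall (fun z hz => absurd hne' hz.1)
          · have hpos : 0 < cd A i j q := by
              by_contra hle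
              push Not at hle
              exact hij ⟨hne', cd_zero hconv hne hcpt hle⟩
            have hc : Continuous (fun z : ℝ × Pl => cd A i j z.2 - z.1) :=
              ((cd_cont A i j).comp continuous_snd).sub continuous_fst
            have h3 : ∀ᶠ z : ℝ × Pl in nhds (0, q), 0 < cd A i j z.2 - z.1 := by
              refine hc.continuousAt.eventually (lt_mem_nhds ?_)
              simpa using hpos
            filter_upwards [h3] with z hz hG
            have := hG.2
            linarith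
      have h3 : ∀ᶠ z : ℝ × Pl in nhds (0, q), ∀ i j : V, Gr A z.2 z.1 i j → adj A q i j := by
        rw [Filter.eventually_all]
        intro i
        rw [Filter.eventually_all]
        exact h2 i
      filter_upwards [h3] with z hz
      exact ⟨X, hX.trans_le (dfc_anti hz X)⟩
    obtain ⟨δ, hδ, hδ'⟩ := Metric.eventually_nhds_iff.1 h1
    refine ⟨δ / 2, by linarith, ?_⟩
    apply hδ'
    rw [Real.dist_eq, sub_zero, abs_of_pos (by linarith)]
    linarith
  -- parameters
  set K : ℕ := Fintype.card (V × V) with hKdef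
  set d : ℝ := ε0 / (K + 1) with hd
  have hdpos : 0 < d := by positivity
  have hdε : ∀ k : ℕ, k ≤ K → ((k : ℝ) + 1) * d ≤ ε0 := by
    intro k hk
    have h1 : (k : ℝ) + 1 ≤ K + 1 := by
      have : (k : ℝ) ≤ K := by exact_mod_cast hk
      linarith
    have h2 : ((K : ℝ) + 1) * d = ε0 := by
      rw [hd]
      field_simp
    calc ((k : ℝ) + 1) * d ≤ (K + 1) * d := mul_le_mul_of_nonneg_right h1 hdpos.le
      _ = ε0 := h2
  -- common element
  have hx : ∀ q ∈ Metric.closedBall (0 : Pl) R0, ∃ x : V, ∀ k : ℕ, k ≤ K →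
      x ∈ pick (Gr A q (((k : ℝ) + 1) * d)) (Gr_symm A q _) := by
    intro q hq
    refine chain_common K (fun k => Gr A q (((k : ℝ) + 1) * d)) (fun k => Gr_symm A q _) ?_ ?_
    · intro k a b hab
      refine Gr_mono ?_ a b hab
      push_cast
      nlinarith
    · intro k hk
      obtain ⟨X, hX⟩ := hviol q hq
      exact ⟨X, hX.trans_le (dfc_anti (fun a b => Gr_mono (hdε k hk) a b) X)⟩
  choose! x hx using hx
  choose c hc using hne
  -- net
  obtain ⟨t0, ht0, htfin, hcover⟩ := hK.finite_cover_balls (e := d / 2) (by linarith)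
  set t : Finset Pl := htfin.toFinset with ht
  have htmem : ∀ y, y ∈ t ↔ y ∈ t0 := fun y => htfin.mem_toFinset
  -- weights
  let w : Pl → Pl → ℝ := fun q y => max 0 (d / 2 - dist q y)
  have hw0 : ∀ q y, 0 ≤ w q y := fun q y => le_max_left _ _
  have hwc : ∀ y, Continuous (fun q => w q y) := by
    intro y
    exact continuous_const.max (continuous_const.sub (continuous_id.dist continuous_const))
  have hwsum : ∀ q ∈ Metric.closedBall (0 : Pl) R0, 0 < ∑ y ∈ t, w q y := by
    intro q hq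
    have := hcover hq
    simp only [Set.mem_iUnion, exists_prop] at this
    obtain ⟨y, hy, hqy⟩ := this
    refine Finset.sum_pos' (fun y _ => hw0 q y) ⟨y, (htmem y).2 hy, ?_⟩
    rw [Metric.mem_ball] at hqy
    exact lt_max_of_lt_right (by linarith)
  let f : Pl → Pl := fun q => t.centerMass (w q) (fun y => c (x y))
  have hfcont : ContinuousOn f (Metric.closedBall 0 R0) := by
    have h1 : ContinuousOn (fun q => ∑ y ∈ t, w q y) (Metric.closedBall 0 R0) :=
      (continuous_finsetSum _ (fun y _ => hwc y)).continuousOn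
    have h2 : ContinuousOn (fun q => ∑ y ∈ t, w q y • c (x y)) (Metric.closedBall 0 R0) :=
      (continuous_finsetSum _ (fun y _ => (hwc y).smul continuous_const)).continuousOn
    exact (h1.inv₀ (fun q hq => (hwsum q hq).ne')).smul h2
  have hfmap : ∀ z : Pl, ‖z‖ ≤ R0 → ‖f z‖ ≤ R0 := by
    intro z hz
    have hz' : z ∈ Metric.closedBall (0 : Pl) R0 := by simpa using hz
    have : f z ∈ Metric.closedBall (0 : Pl) R0 := by
      refine (convex_closedBall (0 : Pl) R0).centerMass_mem (fun y _ => hw0 z y) (hwsum z hz') ?_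
      intro y _
      exact hball _ (hc _)
    simpa using this
  obtain ⟨q, hq, hfq⟩ := H40Brouwer.brouwer_plane R0 hR0 f hfcont hfmap
  have hq' : q ∈ Metric.closedBall (0 : Pl) R0 := by simpa using hq
  -- a good level
  obtain ⟨k, hk, hgood⟩ : ∃ k : ℕ, k ≤ K ∧ ∀ i j : V, d / 2 ≤ |cd A i j q - ((k : ℝ) + 1) * d| := by
    by_contra hbad
    push Not at hbad
    choose! gi gj hg using hbad
    have hnotinj : ¬ Injective (fun k : Fin (K + 1) => (gi k, gj k)) := by
      intro hinj
      have := Fintype.card_le_of_injective _ hinj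
      rw [Fintype.card_fin] at this
      omega
    apply hnotinj
    intro k l hkl
    simp only [Prod.mk.injEq] at hkl
    have h1 := hg k (by omega)
    have h2 := hg l (by omega)
    rw [hkl.1, hkl.2] at h1
    rw [abs_lt] at h1 h2
    have h3 : ((k : ℕ) : ℝ) - ((l : ℕ) : ℝ) < 1 := by
      by_contra h
      push Not at h
      nlinarith [mul_le_mul_of_nonneg_right h hdpos.le]
    have h4 : ((l : ℕ) : ℝ) - ((k : ℕ) : ℝ) < 1 := by
      by_contra h
      push Not at h
      nlinarith [mul_le_mul_of_nonneg_right h hdpos.le]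
    have h5 : ((k : ℕ) : ℝ) < ((l : ℕ) : ℝ) + 1 := by linarith
    have h6 : ((l : ℕ) : ℝ) < ((k : ℕ) : ℝ) + 1 := by linarith
    have h7 : (k : ℕ) < l + 1 := by exact_mod_cast h5
    have h8 : (l : ℕ) < k + 1 := by exact_mod_cast h6
    apply Fin.ext
    omega
  -- graphs agree near q
  have hsame : ∀ y, dist q y < d / 2 →
      Gr A y (((k : ℝ) + 1) * d) = Gr A q (((k : ℝ) + 1) * d) := by
    intro y hy
    funext i j
    have h1 := cd_lip A i j q y
    have h2 := cd_lip A i j y q
    rw [dist_comm] at h2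
    have h3 := hgood i j
    apply propext
    constructor
    · rintro ⟨h4, h5⟩
      refine ⟨h4, ?_⟩
      by_contra h6
      push Not at h6
      rw [abs_of_pos (by linarith)] at h3
      linarith
    · rintro ⟨h4, h5⟩
      refine ⟨h4, ?_⟩
      by_contra h6
      push Not at h6
      rw [abs_of_nonpos (by linarith)] at h3
      linarith
  set R : Finset V := pick (Gr A q (((k : ℝ) + 1) * d)) (Gr_symm A q _) with hR
  have hxR : ∀ y ∈ t, w q y ≠ 0 → x y ∈ R := by
    intro y hy hwy
    have hdist : dist q y < d / 2 := by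
      by_contra h
      push Not at h
      apply hwy
      exact max_eq_left (by linarith)
    have h1 := hx y (ht0 ((htmem y).1 hy)) k hk
    have h2 := hsame y hdist
    have h3 : pick (Gr A y (((k : ℝ) + 1) * d)) (Gr_symm A y _) = R := by
      rw [hR]
      congr 1
    rwa [h3] at h1
  have hεpos : (0:ℝ) ≤ ((k : ℝ) + 1) * d := by positivity
  have hind : ∀ i ∈ R, ∀ j ∈ R, ¬ adj A q i j := by
    intro i hi j hj h
    exact pick_indep _ (Gr_symm A q _) i hi j hj (adj_Gr hεpos i j h)
  have hdefR : 0 < dfc (adj A q) R := by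
    obtain ⟨X, hX⟩ := hviol q hq'
    have h1 : 0 < dfc (Gr A q (((k : ℝ) + 1) * d)) X :=
      hX.trans_le (dfc_anti (fun a b => Gr_mono (hdε k hk) a b) X)
    have h2 := h1.trans_le (pick_max _ (Gr_symm A q _) X)
    exact h2.trans_le (dfc_anti (fun a b => adj_Gr hεpos a b) R)
  refine no_hull hconv (fun i => ⟨c i, hc i⟩) hm hV2 hn hT hind hdefR ?_
  have hmem : f q ∈ convexHull ℝ (⋃ i ∈ R, A i) := by
    show t.centerMass (w q) (fun y => c (x y)) ∈ convexHull ℝ (⋃ i ∈ R, A i)
    rw [← Finset.centerMass_filter_ne_zero]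
    refine Finset.centerMass_mem_convexHull _ (fun y _ => hw0 q y) ?_ ?_
    · rw [Finset.sum_filter_ne_zero]
      exact hwsum q hq'
    · intro y hy
      rw [mem_filter] at hy
      simp only [Set.mem_iUnion, exists_prop]
      exact ⟨x y, hxR y hy.1 hy.2, hc _⟩
  rwa [hfq] at hmem

/-- the main theorem in indexed form -/
theorem main [Nonempty V] {A : V → Set Pl} (hconv : ∀ i, Convex ℝ (A i))
    (hne : ∀ i, (A i).Nonempty) (hcpt : ∀ i, IsCompact (A i)) (hV : Even (Fintype.card V))
    {m : ℕ} (hm : 3 ≤ m) (hV2 : 2 ≤ Fintype.card V) (hn : 4 * m ≤ Fintype.card V + 10)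
    (hT : ∀ s : Finset V, s.card = m → Tight A s) :
    ∃ (p : Pl) (τ : V → V), ∀ v, τ (τ v) = v ∧ τ v ≠ v ∧ p ∈ convexHull ℝ (A v ∪ A (τ v)) := by
  obtain ⟨p, hp⟩ := exists_hall hconv hne hcpt hm hV2 hn hT
  obtain ⟨τ, hτ⟩ := matching_at hconv hne hV hp
  exact ⟨p, τ, fun v => ⟨(hτ v).1, (hτ v).2.1.symm, (hτ v).2.2⟩⟩

end H40Tight
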